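import Pool.Agent.R887.DefsKod
import Pool.Agent.R887.DefsNef
import Pool.Agent.R887.DefsGap

/-!
Definitions: degrees of the iterates of a dominant rational self-map, and its dynamical degrees.
-/

set_option autoImplicit false

open Filter Topology FF Pool.Agent.W602.GT Pool.Agent.Y172 Pool.Agent.R887

namespace Pool.Agent.T2H06.DYR

section

variable {K : Type} [Field K] [Algebra ℂ K] {N : ℕ}

/-- The degrees of the rational maps which are given by the pull backs of `p` pencils of hyperplane
sections of `X` by the `m`-th iterate of the dominant rational self-map given by the endomorphism `φ`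
of the function field, together with `n - p` pencils of hyperplane sections. -/
def iterDegrees (y : Fin (N + 1) → K) (n : ℕ) (φ : K →ₐ[ℂ] K) (p m : ℕ) : Set ℕ :=
  {d | ∃ (u : Fin p → K) (v : Fin (n - p) → K), (∀ a, IsPencil y (u a)) ∧
    (∀ a, IsPencil y (v a)) ∧ degreeOver (fun a => (φ ^ m) (u a)) v = d}

/-- The number `δ` is the `p`-th dynamical degree of the dominant rational self-map `f` of `X`, `n`
being the dimension of `X` and `φ = f^*`: the intersection numbers `d m = (f^m)^* H^p · H^(n - p)`,
which are the largest of the degrees above, grow like `δ^m`. -/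
def DynDegree (y : Fin (N + 1) → K) (n : ℕ) (φ : K →ₐ[ℂ] K) (p : ℕ) (δ : ℝ) : Prop :=
  ∃ d : ℕ → ℕ, (∀ m, IsGreatest (iterDegrees y n φ p m) (d m)) ∧
    Tendsto (fun m : ℕ => (d m : ℝ) ^ (1 / (m : ℝ))) atTop (𝓝 δ)

end

end Pool.Agent.T2H06.DYR
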