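import Pool.Agent.T2H06.DYR.GeoT
import Pool.Agent.T2H06.DYR.Defs
import Pool.Agent.T2H06.DYN.Main

/-!
**The numerical dimension and the dynamical degrees of a dominant rational self-map**, for nef `K_X`.
-/

set_option autoImplicit false
set_option linter.overlappingInstances false
set_option linter.unusedSectionVars false
set_option linter.unusedVariables false

open FF Module MvPolynomial Filter Topology Pool.Agent.W602.GT Pool.Agent.W603.LV Pool.Agent.W619.PQ
open Pool.Agent.Y172 Pool.Agent.Y191 Pool.Agent.R887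
open Pool.Agent.T2H06.DYN (MM VH VH_fg pen_VH Sel le_MM exists_MM sel_fin sel_add sel_rep
  degreeOver_md tendsto_root exists_pos exists_fam abundance_of_few VS)

namespace Pool.Agent.T2H06.DYR

section

variable {K : Type} [Field K] [Algebra ℂ K] {N : ℕ} {y : Fin (N + 1) → K} {n : ℕ}

/-- the degrees of the iterates are intersection numbers -/
theorem isGreatest_iter [Algebra.EssFiniteType ℂ K] (hn : Algebra.trdeg ℂ K = n)
    {φ : K →ₐ[ℂ] K} {V : ℕ → Submodule ℂ K} {a : ℕ → ℕ}
    {M β C : ℕ} (hF : FamR n φ (VH y) V a M β C) {p : ℕ} (hp : p ≤ n) (m : ℕ)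
    (hpos : 0 < MM ((Multiset.replicate p m + Multiset.replicate (n - p) 0).map (AA φ (VH y)))) :
    IsGreatest (iterDegrees y n φ p m)
      (MM ((Multiset.replicate p m + Multiset.replicate (n - p) 0).map (AA φ (VH y)))) := by
  have htri : (Multiset.replicate p m + Multiset.replicate (n - p) 0).map (AA φ (VH y)) =
      Multiset.replicate p (im (φ ^ m) (VH y)) + Multiset.replicate (n - p) (VH y) := by
    rw [Multiset.map_add, Multiset.map_replicate, Multiset.map_replicate, AA_zero]
    rfl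
  have hcard : Algebra.trdeg ℂ K =
      ((Multiset.replicate p m + Multiset.replicate (n - p) 0).map (AA φ (VH y))).card := by
    rw [Multiset.card_map, Multiset.card_add, Multiset.card_replicate, Multiset.card_replicate, hn]
    congr 1
    omega
  have hfg := map_AA_fg hF (Multiset.replicate p m + Multiset.replicate (n - p) 0)
  constructor
  · obtain ⟨l, hl, hmd⟩ := exists_MM hcard hfg hpos.ne'
    rw [← hmd]
    rw [htri] at hl
    obtain ⟨l₁, l₂, h1, h2, rfl⟩ := sel_add hl
    obtain ⟨u', hu', rfl⟩ := sel_fin h1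
    obtain ⟨v, hv, rfl⟩ := sel_fin h2
    choose u hu hgu using fun a => pen_im.1 (hu' a)
    refine ⟨u, v, fun a => pen_VH.1 (hu a), fun a => pen_VH.1 (hv a), ?_⟩
    rw [degreeOver_md, add_comm]
    congr 2
    congr 1
    funext a
    exact hgu a
  · rintro _ ⟨u, v, hu, hv, rfl⟩
    rw [degreeOver_md]
    refine le_MM hcard hfg ?_
    rw [htri, add_comm]
    refine Multiset.Rel.add (sel_rep fun a => pen_VH.2 (hv a)) (sel_rep fun a => ?_)
    exact pen_im.2 ⟨_, pen_VH.2 (hu a), rfl⟩

/-- **The numerical dimension of `K_X` and the dynamical degrees of a dominant rational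
self-map.** -/
theorem dyn (hy : NormalModel y) (hn : Algebra.trdeg ℂ K = n) (hn0 : 0 < n)
    (hcan : Canonical y n) {r : ℕ} (hr : 1 ≤ r) (hcar : CartierIndex y n 0 r)
    (hnef : CanonicalNef y n) (φ : K →ₐ[ℂ] K) :
    ∃ δ : ℕ → ℝ, (∀ p ≤ n, 1 ≤ δ p ∧ DynDegree y n φ p (δ p)) ∧ δ 0 = 1 ∧
      δ n = mapDegree φ ∧
      ∀ j ≤ n, ¬ NumDimLt y n 0 j → ∃ q, q + j ≤ n ∧ ∀ i ≤ j, ∀ p ≤ n, δ p ≤ δ (q + i) := by
  classical
  have hess := hy.ess
  obtain ⟨i, hi⟩ := hy.ne
  obtain ⟨A, hA, hAP⟩ := exists_hyp hy hi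
  obtain ⟨x, E, hx, hE⟩ := exists_crd hn (k := ℂ) (K := K)
  have hfr : IsFrame E := fun F => ⟨fun j => F (x j),
    (Pool.Agent.W73.PG.PULL.expand x hx E hE F).symm⟩
  obtain ⟨a, M, β, C, hF, hdom⟩ := exists_famR hy hn hn0 hcan hr hcar hnef φ hx hE hfr hi hA hAP
  -- the case of no sections
  have hpos0 : 0 < GT φ (VH y) (fun q => VS y n (a q * (r * q)) (a q • A) E) a 0 0
      (Multiset.replicate (n - 0) 0) := by
    obtain ⟨M', β', hF'⟩ := exists_fam hy hn hn0 hcan hx hE hfr hi hA hAP
      (AlgEquiv.refl : K ≃ₐ[ℂ] K)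
    have h1 := exists_pos hy hn hF' (m := 1) le_rfl 0
    unfold DYN.NN at h1
    rw [Multiset.replicate_zero, zero_add, Multiset.map_replicate, DYN.AA_zero, pow_zero,
      mul_one] at h1
    unfold GT gam
    rw [Multiset.map_replicate, AA_zero]
    linarith
  obtain ⟨d, hd, hd0, hdn, -⟩ := fam_plateau hF (Nat.zero_le n) hpos0
  have hpos : ∀ p ≤ n, ∀ m : ℕ,
      0 < MM ((Multiset.replicate p m + Multiset.replicate (n - p) 0).map (AA φ (VH y))) := by
    intro p hp m
    have h1 := GI_pos hF (Nat.zero_le n) (GI_ge hF (Nat.zero_le n) hpos0) 0 le_rfl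
      (Multiset.replicate p m + Multiset.replicate (n - p) 0) (by
        rw [Multiset.card_add, Multiset.card_replicate, Multiset.card_replicate]; omega)
    rw [GI_zero hF] at h1
    exact_mod_cast h1
  have hdeg : (0 : ℝ) < mapDegree φ := by exact_mod_cast hF.deg
  refine ⟨fun p => Real.exp (d p), fun p hp => ⟨?_, _, fun m => isGreatest_iter hn hF hp m
    (hpos p hp m), tendsto_root (hpos p hp) (hd p hp)⟩, ?_, ?_, fun j hj hnd => ?_⟩
  · refine Real.one_le_exp (ge_of_tendsto' (hd p hp) fun m => ?_)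
    have h1 : (1 : ℝ) ≤ MM ((Multiset.replicate p m +
        Multiset.replicate (n - p) 0).map (AA φ (VH y))) := by
      exact_mod_cast hpos p hp m
    exact div_nonneg (Real.log_nonneg h1) (Nat.cast_nonneg _)
  · simp only [hd0, Real.exp_zero]
  · simp only [hdn]
    exact Real.exp_log hdeg
  · obtain ⟨d', hd', -, -, q, hq, hmax⟩ := fam_plateau hF hj
      (GT_pos_of hy hn hn0 hcan hr hx hE hfr hi hA hAP hF hdom hj hnd)
    have e : ∀ p ≤ n, d' p = d p := fun p hp => tendsto_nhds_unique (hd' p hp) (hd p hp)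
    refine ⟨q, hq, fun i hi p hp => Real.exp_le_exp.2 ?_⟩
    rw [← e p hp, ← e (q + i) (by omega)]
    exact hmax i hi p hp

end

end Pool.Agent.T2H06.DYR
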