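import Pool.Agent.T2H06.DYR.LimR

/-!
The limits along the iterates; the growth rates of the intersection numbers.
-/

set_option autoImplicit false
set_option linter.overlappingInstances false
set_option linter.unusedSectionVars false
set_option linter.unusedVariables false

open Filter Topology FF Module IntermediateField Pool.Agent.R887 Pool.Agent.W602.GT
open Pool.Agent.T2H06.DYN (MM MM_dom MM_dom_rep MM_four Dom LD tri tri_card)

namespace Pool.Agent.T2H06.DYR

section fam

variable {K : Type} [Field K] [Algebra ℂ K] [Algebra.EssFiniteType ℂ K] {n : ℕ} {φ : K →ₐ[ℂ] K}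
  {H : Submodule ℂ K} {V : ℕ → Submodule ℂ K} {a : ℕ → ℕ} {M β C : ℕ}

/-- the limit along the iterates -/
noncomputable def GI (φ : K →ₐ[ℂ] K) (H : Submodule ℂ K) (V : ℕ → Submodule ℂ K) (a : ℕ → ℕ)
    (i : ℕ) (s : Multiset ℕ) : ℝ := ⨅ τ, GT φ H V a τ i s

theorem GI_tendsto (hF : FamR n φ H V a M β C) {i : ℕ} {s : Multiset ℕ}
    (h : i + s.card = n) :
    Tendsto (fun τ => GT φ H V a τ i s) atTop (𝓝 (GI φ H V a i s)) :=
  tendsto_atTop_ciInf (antitone_nat_of_succ_le fun τ => GT_anti hF τ h)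
    ⟨0, by rintro _ ⟨τ, rfl⟩; exact GT_nonneg hF τ h⟩

theorem GI_trans (hF : FamR n φ H V a M β C) {i : ℕ} {s : Multiset ℕ} (h : i + s.card = n) :
    GI φ H V a i (s.map (fun x => x + 1)) = mapDegree φ * GI φ H V a i s := by
  have h' : i + (s.map (fun x => x + 1)).card = n := by rw [Multiset.card_map, h]
  have h1 := (GI_tendsto hF h').comp (tendsto_add_atTop_nat 1)
  refine tendsto_nhds_unique h1 (((GI_tendsto hF h).const_mul (mapDegree φ : ℝ)).congr fun τ => ?_)
  simp only [Function.comp_apply]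
  rw [GT_trans hF τ h]

theorem GI_four (hF : FamR n φ H V a M β C) {i : ℕ} {s : Multiset ℕ}
    (h : i + s.card + 2 = n) (b c d e : ℕ) :
    GI φ H V a i (b ::ₘ c ::ₘ s) * GI φ H V a i (d ::ₘ e ::ₘ s) ≤
      2 * (GI φ H V a i (b ::ₘ d ::ₘ s) * GI φ H V a i (c ::ₘ e ::ₘ s) +
        GI φ H V a i (b ::ₘ e ::ₘ s) * GI φ H V a i (c ::ₘ d ::ₘ s)) := by
  have hc : ∀ x y : ℕ, i + (x ::ₘ y ::ₘ s).card = n := fun x y => by
    rw [Multiset.card_cons, Multiset.card_cons]; omega
  exact le_of_tendsto_of_tendsto' ((GI_tendsto hF (hc b c)).mul (GI_tendsto hF (hc d e)))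
    ((((GI_tendsto hF (hc b d)).mul (GI_tendsto hF (hc c e))).add
      ((GI_tendsto hF (hc b e)).mul (GI_tendsto hF (hc c d)))).const_mul 2)
    fun τ => GT_four hF τ h b c d e

theorem GI_mixed (hF : FamR n φ H V a M β C) {i : ℕ} {s : Multiset ℕ}
    (h : i + s.card + 2 = n) (b c d : ℕ) :
    GI φ H V a i (b ::ₘ c ::ₘ s) * GI φ H V a (i + 1) (d ::ₘ s) ≤
      2 * (GI φ H V a i (b ::ₘ d ::ₘ s) * GI φ H V a (i + 1) (c ::ₘ s) +
        GI φ H V a i (c ::ₘ d ::ₘ s) * GI φ H V a (i + 1) (b ::ₘ s)) := by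
  have hc : ∀ x y : ℕ, i + (x ::ₘ y ::ₘ s).card = n := fun x y => by
    rw [Multiset.card_cons, Multiset.card_cons]; omega
  have hc' : ∀ x : ℕ, i + 1 + (x ::ₘ s).card = n := fun x => by
    rw [Multiset.card_cons]; omega
  exact le_of_tendsto_of_tendsto' ((GI_tendsto hF (hc b c)).mul (GI_tendsto hF (hc' d)))
    ((((GI_tendsto hF (hc b d)).mul (GI_tendsto hF (hc' c))).add
      ((GI_tendsto hF (hc c d)).mul (GI_tendsto hF (hc' b)))).const_mul 2)
    fun τ => GT_mixed hF τ h b c d

theorem GI_dom (hF : FamR n φ H V a M β C) (t : ℕ) {i : ℕ} {s : Multiset ℕ}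
    (h : i + 1 + s.card = n) : GI φ H V a (i + 1) s ≤ M * GI φ H V a i (t ::ₘ s) := by
  have h' : i + (t ::ₘ s).card = n := by rw [Multiset.card_cons]; omega
  refine le_of_tendsto_of_tendsto (GI_tendsto hF h) ((GI_tendsto hF h').const_mul _) ?_
  filter_upwards [eventually_ge_atTop t] with τ hτ
  exact GT_dom hF hτ h

theorem GI_hyp (hF : FamR n φ H V a M β C) {t t' : ℕ} {C' : ℕ} {h₀ : K}
    (hd : Dom n (AA φ H t) (AA φ H t') 1 C' h₀) {i k : ℕ} {s : Multiset ℕ}
    (h : i + (k + s.card) = n) :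
    GI φ H V a i (Multiset.replicate k t + s) ≤
      (C' : ℝ) ^ k * GI φ H V a i (Multiset.replicate k t' + s) := by
  have hc : ∀ t, i + (Multiset.replicate k t + s).card = n := fun t => by
    rw [Multiset.card_add, Multiset.card_replicate, h]
  exact le_of_tendsto_of_tendsto' (GI_tendsto hF (hc t)) ((GI_tendsto hF (hc t')).const_mul _)
    fun τ => GT_hyp hF τ hd h

theorem GI_zero (hF : FamR n φ H V a M β C) {s : Multiset ℕ} :
    GI φ H V a 0 s = MM (s.map (AA φ H)) := by
  unfold GI GT gam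
  exact ciInf_const

/-- **Integrality.** -/
theorem GI_ge (hF : FamR n φ H V a M β C) {j : ℕ} (hj : j ≤ n)
    (hpos : 0 < GT φ H V a 0 j (Multiset.replicate (n - j) 0)) :
    0 < GI φ H V a j (Multiset.replicate (n - j) 0) := by
  have ha1 : 1 ≤ a 1 := a_pos hF le_rfl
  have ha2 : 1 ≤ a 2 := a_pos hF (by omega)
  have h1 : ∀ τ, 1 / ((a 1 : ℝ) * a 2) ^ j ≤ GT φ H V a τ j (Multiset.replicate (n - j) 0) :=
    fun τ => gam_ge ha1 ha2 (GT_pos hF hj hpos τ)
  have h2 : (0 : ℝ) < 1 / ((a 1 : ℝ) * a 2) ^ j := by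
    have : (0 : ℝ) < a 1 := by exact_mod_cast ha1
    have : (0 : ℝ) < a 2 := by exact_mod_cast ha2
    positivity
  exact h2.trans_le (le_ciInf h1)

/-- all translates of `H` are replaced -/
theorem GI_all (hF : FamR n φ H V a M β C) (s : Multiset ℕ) : ∃ C' : ℝ, ∀ (i : ℕ)
    (s' : Multiset ℕ), i + (s.card + s'.card) = n →
      GI φ H V a i (Multiset.replicate s.card 0 + s') ≤ C' * GI φ H V a i (s + s') := by
  induction s using Multiset.induction_on with
  | empty =>
    refine ⟨1, fun i s' _ => ?_⟩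
    rw [Multiset.card_zero, Multiset.replicate_zero, one_mul]
  | cons t s ih =>
    obtain ⟨C₁, hC₁⟩ := ih
    obtain ⟨C₂, h₀, hd⟩ := dom_up hF t
    refine ⟨|C₁| * C₂, fun i s' h => ?_⟩
    rw [Multiset.card_cons] at h ⊢
    have e1 : Multiset.replicate (s.card + 1) 0 + s' = Multiset.replicate s.card 0 + 0 ::ₘ s' := by
      rw [Multiset.replicate_succ, Multiset.cons_add, Multiset.add_cons]
    have h1 := hC₁ i (0 ::ₘ s') (by rw [Multiset.card_cons]; omega)
    have h2 := GI_hyp hF hd (i := i) (k := 1) (s := s + s') (by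
      rw [Multiset.card_add]; omega)
    rw [pow_one, Multiset.replicate_one, Multiset.singleton_add, Multiset.replicate_one,
      Multiset.singleton_add] at h2
    have e2 : s + 0 ::ₘ s' = 0 ::ₘ (s + s') := Multiset.add_cons _ _ _
    rw [e1, Multiset.cons_add]
    rw [e2] at h1
    have hnn : 0 ≤ GI φ H V a i (0 ::ₘ (s + s')) :=
      ge_of_tendsto' (GI_tendsto hF (by rw [Multiset.card_cons, Multiset.card_add]; omega))
        fun τ => GT_nonneg hF τ (by rw [Multiset.card_cons, Multiset.card_add]; omega)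
    obtain ⟨x, hx⟩ : ∃ x, x = GI φ H V a i (0 ::ₘ (s + s')) := ⟨_, rfl⟩
    obtain ⟨z, hz⟩ : ∃ z, z = GI φ H V a i (t ::ₘ (s + s')) := ⟨_, rfl⟩
    rw [← hx] at h1 h2 hnn
    rw [← hz] at h2 ⊢
    have h3 := mul_le_mul_of_nonneg_right (le_abs_self C₁) hnn
    have h4 := mul_le_mul_of_nonneg_left h2 (abs_nonneg C₁)
    have h5 : |C₁| * ((C₂ : ℝ) * z) = |C₁| * C₂ * z := by ring
    linarith

/-- positivity -/
theorem GI_pos (hF : FamR n φ H V a M β C) {j : ℕ} (hj : j ≤ n)
    (hpos : 0 < GI φ H V a j (Multiset.replicate (n - j) 0)) :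
    ∀ i ≤ j, ∀ s : Multiset ℕ, i + s.card = n → 0 < GI φ H V a i s := by
  have h1 : ∀ s : Multiset ℕ, j + s.card = n → 0 < GI φ H V a j s := by
    intro s hs
    obtain ⟨C', hC'⟩ := GI_all hF s
    have h2 := hC' j 0 (by rw [Multiset.card_zero]; omega)
    have e1 : s.card = n - j := by omega
    rw [add_zero, add_zero, e1] at h2
    have hnn : 0 ≤ GI φ H V a j s := ge_of_tendsto' (GI_tendsto hF hs) fun τ => GT_nonneg hF τ hs
    rcases hnn.lt_or_eq with h3 | h3
    · exact h3
    · rw [← h3, mul_zero] at h2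
      linarith
  have h2 : ∀ l ≤ j, ∀ s : Multiset ℕ, j - l + s.card = n → 0 < GI φ H V a (j - l) s := by
    intro l
    induction l with
    | zero =>
      intro _ s hs
      exact h1 s hs
    | succ l ih =>
      intro hl s hs
      obtain ⟨t, s', rfl⟩ : ∃ t s', s = t ::ₘ s' := by
        have h3 : 0 < s.card := by omega
        obtain ⟨t, ht⟩ := Multiset.card_pos_iff_exists_mem.1 h3
        exact ⟨t, s.erase t, (Multiset.cons_erase ht).symm⟩
      rw [Multiset.card_cons] at hs
      have h3 := ih (by omega) s' (by omega)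
      have e : j - l = j - (l + 1) + 1 := by omega
      rw [e] at h3
      have h4 := GI_dom hF t (i := j - (l + 1)) (s := s') (by omega)
      by_contra hc
      push Not at hc
      have h5 : (0 : ℝ) ≤ M := Nat.cast_nonneg _
      have h6 := mul_nonpos_of_nonneg_of_nonpos h5 hc
      linarith
  intro i hi s hs
  have h3 := h2 (j - i) (by omega) s (by omega)
  have e : j - (j - i) = i := by omega
  rwa [e] at h3

theorem up_tri (m p q : ℕ) : up (tri m 0 0 p 0 q) 0 =
    Multiset.replicate p m + Multiset.replicate q 0 := by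
  unfold up tri
  rw [Multiset.map_add, Multiset.map_add, Multiset.map_replicate, Multiset.map_replicate,
    Multiset.map_replicate, Multiset.replicate_zero, add_zero]
  simp

/-- **The growth rates of the intersection numbers of the translates of `H`.** -/
theorem fam_plateau (hF : FamR n φ H V a M β C) {j : ℕ} (hj : j ≤ n)
    (hpos : 0 < GT φ H V a 0 j (Multiset.replicate (n - j) 0)) :
    ∃ d : ℕ → ℝ, (∀ p ≤ n, Tendsto (fun m : ℕ =>
      Real.log (MM ((Multiset.replicate p m + Multiset.replicate (n - p) 0).map (AA φ H))) / m)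
        atTop (𝓝 (d p))) ∧ d 0 = 0 ∧ d n = Real.log (mapDegree φ) ∧
      ∃ q, q + j ≤ n ∧ ∀ i ≤ j, ∀ p ≤ n, d p ≤ d (q + i) := by
  have hd0 : (0 : ℝ) < mapDegree φ := by exact_mod_cast hF.deg
  have hallpos := GI_pos hF hj (GI_ge hF hj hpos)
  have htr : ∀ i ≤ n, ∀ s : Multiset ℕ, s.card = n - i →
      GI φ H V a i (s.map (fun x => x + 1)) = mapDegree φ * GI φ H V a i s :=
    fun i hi s hs => GI_trans hF (by omega)
  have hlor : ∀ i ≤ j, LorT (n - i) (Real.log (mapDegree φ)) (ext (mapDegree φ) (GI φ H V a i)) :=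
    fun i hi => ext_lor hd0 (htr i (by omega)) (fun s hs => hallpos i hi s (by omega))
      fun ω b c d e hω => GI_four hF (by omega) b c d e
  have hsucc : ∀ i < j, n - i = n - (i + 1) + 1 := fun i hi => by omega
  obtain ⟨d, hd, hq⟩ := plateau (D₀ := Real.log (mapDegree φ)) hj
    (F := fun i => ext (mapDegree φ) (GI φ H V a i)) hlor (by
      intro i hi ω b c e hω
      refine ext_mixed (N := n - (i + 1)) hd0 (fun s hs => htr i (by omega) s (by omega))
        (fun s hs => htr (i + 1) (by omega) s hs) (fun ω b c e hω => ?_) ω b c e hω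
      exact GI_mixed hF (by omega) b c e) (by
      intro i hi
      refine ⟨M, fun s hs t => ?_⟩
      exact ext_dom (N := n - (i + 1)) hd0 (fun s hs => htr i (by omega) s (by omega))
        (fun s hs => htr (i + 1) (by omega) s hs) (fun s hs t => GI_dom hF t (by omega)) s hs t)
  have h0 := hlor 0 (Nat.zero_le _)
  rw [Nat.sub_zero] at h0
  refine ⟨d, fun p hp => (hd p hp).congr fun m => ?_, h0.rate_zero (hd 0 (Nat.zero_le _)),
    h0.rate_top (hd n le_rfl), hq⟩
  unfold LD
  have hv : ∀ x ∈ tri (m : ℤ) 0 0 p 0 (n - p), 0 ≤ x + ((0 : ℕ) : ℤ) := by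
    intro x hx
    unfold tri at hx
    rcases Multiset.mem_add.1 hx with hx | hx
    · rcases Multiset.mem_add.1 hx with hx | hx
      · rw [Multiset.eq_of_mem_replicate hx]
        positivity
      · rw [Multiset.eq_of_mem_replicate hx]
        simp
    · rw [Multiset.eq_of_mem_replicate hx]
      simp
  rw [ext_eq (N := n) hd0 (fun s hs => htr 0 (Nat.zero_le _) s (by omega))
    (by rw [tri_card]; omega) hv, pow_zero, inv_one, one_mul, up_tri, GI_zero hF]

end fam

end Pool.Agent.T2H06.DYR
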