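import Pool.Agent.T2H06.DYR.TwB

/-!
Functions on multisets of natural numbers which are multiplied by a constant under the translation by
one are extended to multisets of integers.
-/

set_option autoImplicit false
set_option linter.unusedVariables false

open Filter Topology Pool.Agent.T2H06.DYN

namespace Pool.Agent.T2H06.DYR

/-- the sum of the absolute values -/
def wt (s : Multiset ℤ) : ℕ := (s.map Int.natAbs).sum

/-- the translate -/
def up (s : Multiset ℤ) (T : ℕ) : Multiset ℕ := s.map (fun x : ℤ => (x + (T : ℤ)).toNat)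

/-- the extension -/
noncomputable def ext (d : ℝ) (G : Multiset ℕ → ℝ) (s : Multiset ℤ) : ℝ :=
  (d ^ wt s)⁻¹ * G (up s (wt s))

theorem wt_valid {s : Multiset ℤ} {x : ℤ} (hx : x ∈ s) : 0 ≤ x + wt s := by
  have h1 : x.natAbs ≤ wt s := by
    unfold wt
    exact Multiset.le_sum_of_mem (Multiset.mem_map_of_mem _ hx)
  omega

theorem up_card (s : Multiset ℤ) (T : ℕ) : (up s T).card = s.card := by
  unfold up
  rw [Multiset.card_map]

theorem up_cons (a : ℤ) (s : Multiset ℤ) (T : ℕ) : up (a ::ₘ s) T = (a + T).toNat ::ₘ up s T := by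
  unfold up
  rw [Multiset.map_cons]

theorem up_add {s : Multiset ℤ} {T : ℕ} (h : ∀ x ∈ s, 0 ≤ x + T) (k : ℕ) :
    up s (T + k) = (up s T).map (fun x => x + k) := by
  unfold up
  rw [Multiset.map_map]
  refine Multiset.map_congr rfl fun x hx => ?_
  have := h x hx
  simp only [Function.comp_apply]
  omega

section

variable {N : ℕ} {d : ℝ} {G : Multiset ℕ → ℝ}

theorem trans_k (htr : ∀ s : Multiset ℕ, s.card = N → G (s.map (fun x => x + 1)) = d * G s)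
    (k : ℕ) : ∀ s : Multiset ℕ, s.card = N → G (s.map (fun x => x + k)) = d ^ k * G s := by
  induction k with
  | zero =>
    intro s hs
    simp
  | succ k ih =>
    intro s hs
    have h1 : s.map (fun x => x + (k + 1)) = (s.map (fun x => x + k)).map (fun x => x + 1) := by
      rw [Multiset.map_map]
      rfl
    rw [h1, htr _ (by rw [Multiset.card_map, hs]), ih s hs, pow_succ]
    ring

theorem ext_eq (hd : 0 < d)
    (htr : ∀ s : Multiset ℕ, s.card = N → G (s.map (fun x => x + 1)) = d * G s)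
    {s : Multiset ℤ} (hs : s.card = N) {T : ℕ} (hT : ∀ x ∈ s, 0 ≤ x + T) :
    ext d G s = (d ^ T)⁻¹ * G (up s T) := by
  have key : ∀ {T : ℕ}, (∀ x ∈ s, 0 ≤ x + (T : ℤ)) → ∀ k,
      (d ^ (T + k))⁻¹ * G (up s (T + k)) = (d ^ T)⁻¹ * G (up s T) := by
    intro T hT k
    rw [up_add hT, trans_k htr k _ (by rw [up_card, hs]), pow_add]
    field_simp
  unfold ext
  rw [← key (fun x hx => wt_valid hx) T, ← key hT (wt s), add_comm]

theorem ext_trans (hd : 0 < d)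
    (htr : ∀ s : Multiset ℕ, s.card = N → G (s.map (fun x => x + 1)) = d * G s)
    {s : Multiset ℤ} (hs : s.card = N) (t : ℤ) :
    ext d G (s.map (fun x => x + t)) = Real.exp (Real.log d * t) * ext d G s := by
  obtain ⟨T, hT⟩ : ∃ T : ℕ, T = wt s + t.natAbs := ⟨_, rfl⟩
  obtain ⟨T', hT'⟩ : ∃ T' : ℕ, (T' : ℤ) = T + t := ⟨((T : ℤ) + t).toNat, by omega⟩
  have h1 : ∀ x ∈ s.map (fun x => x + t), 0 ≤ x + (T : ℤ) := by
    intro x hx
    obtain ⟨z, hz, rfl⟩ := Multiset.mem_map.1 hx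
    have := wt_valid hz
    omega
  have h2 : ∀ x ∈ s, 0 ≤ x + (T' : ℤ) := by
    intro x hx
    have := wt_valid hx
    omega
  rw [ext_eq hd htr (by rw [Multiset.card_map, hs]) h1, ext_eq hd htr hs h2]
  have h3 : up (s.map (fun x => x + t)) T = up s T' := by
    unfold up
    rw [Multiset.map_map]
    refine Multiset.map_congr rfl fun x hx => ?_
    simp only [Function.comp_apply]
    omega
  rw [h3, ← mul_assoc]
  congr 1
  have h4 : (t : ℝ) = T' - T := by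
    have : ((T' : ℤ) : ℝ) = ((T : ℤ) : ℝ) + t := by
      rw [hT']
      push_cast
      ring
    push_cast at this
    linarith
  have e : ∀ k : ℕ, d ^ k = Real.exp (Real.log d * k) := by
    intro k
    rw [← Real.rpow_natCast, Real.rpow_def_of_pos hd]
  rw [h4, e, e, ← Real.exp_neg, ← Real.exp_neg, ← Real.exp_add]
  congr 1
  ring

theorem ext_lor (hd : 0 < d)
    (htr : ∀ s : Multiset ℕ, s.card = N → G (s.map (fun x => x + 1)) = d * G s)
    (hpos : ∀ s : Multiset ℕ, s.card = N → 0 < G s)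
    (hfour : ∀ (ω : Multiset ℕ) (a b c e : ℕ), ω.card + 2 = N →
      G (a ::ₘ b ::ₘ ω) * G (c ::ₘ e ::ₘ ω) ≤
        2 * (G (a ::ₘ c ::ₘ ω) * G (b ::ₘ e ::ₘ ω) + G (a ::ₘ e ::ₘ ω) * G (b ::ₘ c ::ₘ ω))) :
    LorT N (Real.log d) (ext d G) := by
  refine ⟨fun s hs => ?_, fun s t hs => ext_trans hd htr hs t, fun ω a b c e hω => ?_⟩
  · unfold ext
    exact mul_pos (inv_pos.2 (pow_pos hd _)) (hpos _ (by rw [up_card, hs]))
  · obtain ⟨T, hT⟩ : ∃ T : ℕ, T = wt (a ::ₘ b ::ₘ c ::ₘ e ::ₘ ω) := ⟨_, rfl⟩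
    have hv : ∀ x ∈ a ::ₘ b ::ₘ c ::ₘ e ::ₘ ω, 0 ≤ x + (T : ℤ) := by
      intro x hx
      rw [hT]
      exact wt_valid hx
    have hm : ∀ p q : ℤ, p ∈ a ::ₘ b ::ₘ c ::ₘ e ::ₘ ω → q ∈ a ::ₘ b ::ₘ c ::ₘ e ::ₘ ω →
        ext d G (p ::ₘ q ::ₘ ω) = (d ^ T)⁻¹ * G ((p + T).toNat ::ₘ (q + T).toNat ::ₘ up ω T) := by
      intro p q hp hq
      rw [ext_eq hd htr (T := T) (by rw [Multiset.card_cons, Multiset.card_cons]; omega),
        up_cons, up_cons]
      intro x hx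
      rcases Multiset.mem_cons.1 hx with rfl | hx
      · exact hv _ hp
      rcases Multiset.mem_cons.1 hx with rfl | hx
      · exact hv _ hq
      · exact hv _ (by simp [hx])
    have ma : a ∈ a ::ₘ b ::ₘ c ::ₘ e ::ₘ ω := by simp
    have mb : b ∈ a ::ₘ b ::ₘ c ::ₘ e ::ₘ ω := by simp
    have mc : c ∈ a ::ₘ b ::ₘ c ::ₘ e ::ₘ ω := by simp
    have me : e ∈ a ::ₘ b ::ₘ c ::ₘ e ::ₘ ω := by simp
    rw [hm a b ma mb, hm c e mc me, hm a c ma mc, hm b e mb me, hm a e ma me, hm b c mb mc]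
    have h1 := hfour (up ω T) (a + T).toNat (b + T).toNat (c + T).toNat (e + T).toNat
      (by rw [up_card]; exact hω)
    have h2 : (0 : ℝ) ≤ (d ^ T)⁻¹ * (d ^ T)⁻¹ := by positivity
    have h3 := mul_le_mul_of_nonneg_left h1 h2
    refine le_trans (le_of_eq ?_) (h3.trans (le_of_eq ?_)) <;> ring

end

section two

variable {N : ℕ} {d : ℝ} {G G' : Multiset ℕ → ℝ}

theorem ext_mixed (hd : 0 < d)
    (htr : ∀ s : Multiset ℕ, s.card = N + 1 → G (s.map (fun x => x + 1)) = d * G s)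
    (htr' : ∀ s : Multiset ℕ, s.card = N → G' (s.map (fun x => x + 1)) = d * G' s)
    (hmix : ∀ (ω : Multiset ℕ) (a b c : ℕ), ω.card + 1 = N →
      G (a ::ₘ b ::ₘ ω) * G' (c ::ₘ ω) ≤
        2 * (G (a ::ₘ c ::ₘ ω) * G' (b ::ₘ ω) + G (b ::ₘ c ::ₘ ω) * G' (a ::ₘ ω)))
    (ω : Multiset ℤ) (a b c : ℤ) (hω : ω.card + 1 = N) :
    ext d G (a ::ₘ b ::ₘ ω) * ext d G' (c ::ₘ ω) ≤
      2 * (ext d G (a ::ₘ c ::ₘ ω) * ext d G' (b ::ₘ ω) +
        ext d G (b ::ₘ c ::ₘ ω) * ext d G' (a ::ₘ ω)) := by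
  obtain ⟨T, hT⟩ : ∃ T : ℕ, T = wt (a ::ₘ b ::ₘ c ::ₘ ω) := ⟨_, rfl⟩
  have hv : ∀ x ∈ a ::ₘ b ::ₘ c ::ₘ ω, 0 ≤ x + (T : ℤ) := by
    intro x hx
    rw [hT]
    exact wt_valid hx
  have hm : ∀ p q : ℤ, p ∈ a ::ₘ b ::ₘ c ::ₘ ω → q ∈ a ::ₘ b ::ₘ c ::ₘ ω →
      ext d G (p ::ₘ q ::ₘ ω) = (d ^ T)⁻¹ * G ((p + T).toNat ::ₘ (q + T).toNat ::ₘ up ω T) := by
    intro p q hp hq
    rw [ext_eq hd htr (T := T) (by rw [Multiset.card_cons, Multiset.card_cons]; omega),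
      up_cons, up_cons]
    intro x hx
    rcases Multiset.mem_cons.1 hx with rfl | hx
    · exact hv _ hp
    rcases Multiset.mem_cons.1 hx with rfl | hx
    · exact hv _ hq
    · exact hv _ (by simp [hx])
  have hm' : ∀ p : ℤ, p ∈ a ::ₘ b ::ₘ c ::ₘ ω →
      ext d G' (p ::ₘ ω) = (d ^ T)⁻¹ * G' ((p + T).toNat ::ₘ up ω T) := by
    intro p hp
    rw [ext_eq hd htr' (T := T) (by rw [Multiset.card_cons]; omega), up_cons]
    intro x hx
    rcases Multiset.mem_cons.1 hx with rfl | hx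
    · exact hv _ hp
    · exact hv _ (by simp [hx])
  have ma : a ∈ a ::ₘ b ::ₘ c ::ₘ ω := by simp
  have mb : b ∈ a ::ₘ b ::ₘ c ::ₘ ω := by simp
  have mc : c ∈ a ::ₘ b ::ₘ c ::ₘ ω := by simp
  rw [hm a b ma mb, hm a c ma mc, hm b c mb mc, hm' a ma, hm' b mb, hm' c mc]
  have h1 := hmix (up ω T) (a + T).toNat (b + T).toNat (c + T).toNat
    (by rw [up_card]; exact hω)
  have h2 : (0 : ℝ) ≤ (d ^ T)⁻¹ * (d ^ T)⁻¹ := by positivity
  have h3 := mul_le_mul_of_nonneg_left h1 h2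
  refine le_trans (le_of_eq ?_) (h3.trans (le_of_eq ?_)) <;> ring

theorem ext_dom (hd : 0 < d)
    (htr : ∀ s : Multiset ℕ, s.card = N + 1 → G (s.map (fun x => x + 1)) = d * G s)
    (htr' : ∀ s : Multiset ℕ, s.card = N → G' (s.map (fun x => x + 1)) = d * G' s) {C : ℝ}
    (hdom : ∀ s : Multiset ℕ, s.card = N → ∀ t : ℕ, G' s ≤ C * G (t ::ₘ s))
    (s : Multiset ℤ) (hs : s.card = N) (t : ℤ) : ext d G' s ≤ C * ext d G (t ::ₘ s) := by
  obtain ⟨T, hT⟩ : ∃ T : ℕ, T = wt (t ::ₘ s) := ⟨_, rfl⟩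
  have hv : ∀ x ∈ t ::ₘ s, 0 ≤ x + (T : ℤ) := by
    intro x hx
    rw [hT]
    exact wt_valid hx
  rw [ext_eq hd htr' hs (T := T) fun x hx => hv x (by simp [hx]),
    ext_eq hd htr (by rw [Multiset.card_cons, hs]) hv, up_cons]
  have h1 := hdom (up s T) (by rw [up_card, hs]) (t + T).toNat
  have h2 : (0 : ℝ) ≤ (d ^ T)⁻¹ := by positivity
  have h3 := mul_le_mul_of_nonneg_left h1 h2
  refine h3.trans (le_of_eq ?_)
  ring

end two

end Pool.Agent.T2H06.DYR
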