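import Pool.Agent.T2H06.DYR.GeoS

/-!
The family of the linear systems of the sections of `m (q r K_X + H)`, if `K_X` is nef.
-/

set_option autoImplicit false
set_option linter.overlappingInstances false
set_option linter.unusedSectionVars false
set_option linter.unusedVariables false

open FF MvPolynomial Pool.Agent.W602.GT Pool.Agent.W603.LV Pool.Agent.W619.PQ
open Pool.Agent.Y172 Pool.Agent.Y191 Pool.Agent.R887 Filter Topology
open Pool.Agent.T2H06.DYN (MM MM_dom MM_dom_rep MM_four Dom VH VH_fg mem_VH pen_VH VS mem_VS VS_fg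
  exists_lin sec_ord exists_ord_le exists_fam not_numDimLt)

namespace Pool.Agent.T2H06.DYR

theorem deg_pos {K K' : Type} [Field K] [Algebra ℂ K] [Field K'] [Algebra ℂ K']
    [Algebra.EssFiniteType ℂ K'] {n : ℕ} (hn : Algebra.trdeg ℂ K = n)
    (hn' : Algebra.trdeg ℂ K' = n) (φ : K →ₐ[ℂ] K') : 1 ≤ mapDegree φ := by
  let _ : Algebra K K' := φ.toRingHom.toAlgebra
  have hst : IsScalarTower ℂ K K' := IsScalarTower.of_algebraMap_eq fun c => (φ.commutes c).symm
  have hfd : FiniteDimensional K K' := finite_map hn hn'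
  have h1 : Module.finrank K K' = mapDegree φ := by
    unfold mapDegree
    refine Algebra.finrank_eq_of_equiv_equiv (AlgEquiv.ofInjectiveField φ).toRingEquiv
      (RingEquiv.refl K') ?_
    ext x
    rfl
  rw [← h1]
  exact Module.finrank_pos

section

variable {K : Type} [Field K] [Algebra ℂ K] {N n : ℕ} {y : Fin (N + 1) → K}

theorem twist_of (hy : NormalModel y) {i : Fin (N + 1)} {A : Place ℂ K → ℚ}
    (hAP : ∀ P l, IsPrimeDivisor y P → Centred y l P → A P = P.ord (y i / y l)) {R m : ℕ}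
    {ω : (Fin n → Derivation ℂ K K) → K} :
    IsSection y n R (m • A) ω ↔ IsTwistedSectionP y i n 0 R m ω := by
  constructor
  · rintro ⟨h1, h2⟩
    refine ⟨h1, fun P l hP hl => ?_⟩
    have h3 := h2 P hP
    rw [Pi.smul_apply, nsmul_eq_mul, hAP P l hP hl] at h3
    have e : -((R : ℚ) * (0 : Place ℂ K → ℚ) P) - m * P.ord (y i / y l) =
        -((m : ℚ) * P.ord (y i / y l)) := by
      rw [Pi.zero_apply, mul_zero, neg_zero, zero_sub]
    rw [e]
    exact h3
  · rintro ⟨h1, h2⟩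
    refine ⟨h1, fun P hP => ?_⟩
    obtain ⟨l, hl⟩ := exists_centred hy P
    have h3 := h2 P l hP hl
    have e : -((R : ℚ) * (0 : Place ℂ K → ℚ) P) - m * P.ord (y i / y l) =
        -((m : ℚ) * P.ord (y i / y l)) := by
      rw [Pi.zero_apply, mul_zero, neg_zero, zero_sub]
    rw [e] at h3
    rw [Pi.smul_apply, nsmul_eq_mul, hAP P l hP hl]
    exact h3

theorem gen_of {i : Fin (N + 1)} {R m : ℕ} {ω : (Fin n → Derivation ℂ K K) → K} {Q : Place ℂ K}
    (h : GeneratesAt y i n m ω Q) : GeneratesAtP y i n 0 R m ω Q := by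
  intro P l hP ht hl
  have e : -((R : ℚ) * (0 : Place ℂ K → ℚ) P) - m * P.ord (y i / y l) =
      -((m : ℚ) * P.ord (y i / y l)) := by
    rw [Pi.zero_apply, mul_zero, neg_zero, zero_sub]
  rw [e]
  exact h P l hP ht hl

theorem dom_mono {V V' : Submodule ℂ K} {a b b' : ℕ} {h w : K} (hd : Dom n V V' a b h)
    (hw : w ∈ V') (hw0 : w ≠ 0) (hb : b ≤ b') : Dom n V V' a b' (h / w ^ (b' - b)) := by
  obtain ⟨c, rfl⟩ : ∃ c, b' = b + c := ⟨b' - b, by omega⟩
  have e : b + c - b = c := by omega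
  rw [e]
  refine ⟨div_ne_zero hd.1 (pow_ne_zero _ hw0), fun P hP f hf hf0 => ?_⟩
  obtain ⟨f', hf', hf'0, hle⟩ := hd.2 P hP f hf hf0
  rw [P.ord_div hd.1 (pow_ne_zero _ hw0), P.ord_pow]
  rcases le_total (P.ord f') (P.ord w) with h1 | h1
  · refine ⟨f', hf', hf'0, ?_⟩
    have h2 := mul_le_mul_of_nonneg_left h1 (show (0 : ℤ) ≤ c from Int.natCast_nonneg _)
    push_cast
    nlinarith
  · refine ⟨w, hw, hw0, ?_⟩
    have h2 := mul_le_mul_of_nonneg_left h1 (show (0 : ℤ) ≤ b from Int.natCast_nonneg _)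
    push_cast
    nlinarith

/-- **The family of the linear systems.** -/
theorem exists_famR (hy : NormalModel y) (hn : Algebra.trdeg ℂ K = n) (hn0 : 0 < n)
    (hcan : Canonical y n) {r : ℕ} (hr : 1 ≤ r) (hcar : CartierIndex y n 0 r)
    (hnef : CanonicalNef y n) (φ : K →ₐ[ℂ] K)
    {x : Fin n → K} {E : Fin n → Derivation ℂ K K} (hx : IsTranscendenceBasis ℂ x)
    (hE : ∀ i j, E i (x j) = if i = j then 1 else 0) (hfr : IsFrame E) {i : Fin (N + 1)}
    (hi : y i ≠ 0) {A : Place ℂ K → ℚ} (hA : Effective y A)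
    (hAP : ∀ P l, IsPrimeDivisor y P → Centred y l P → A P = P.ord (y i / y l)) :
    ∃ (a : ℕ → ℕ) (M β C : ℕ),
      FamR n φ (VH y) (fun q => VS y n (a q * (r * q)) (a q • A) E) a M β C ∧
      ∀ m b q : ℕ, 1 ≤ q → b * (r * q) ≤ m →
        Dom n (VS y n m (b • A) E) (VS y n (a q * (r * q)) (a q • A) E) (a q * (r * q)) m 1 := by
  classical
  have hess := hy.ess
  -- the multiples which are generated by sections
  have h1 : ∀ q, ∃ a : ℕ, 1 ≤ q → 1 ≤ a ∧ ∀ Q : Place ℂ K, Divisorial n Q →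
      ∃ ω : (Fin n → Derivation ℂ K K) → K, IsTwistedSectionP y i n 0 (a * (r * q)) a ω ∧
        GeneratesAtP y i n 0 (a * (r * q)) a ω Q := by
    intro q
    by_cases hq : 1 ≤ q
    · obtain ⟨m, hm, h⟩ := hnef i hi (r * q) (Nat.mul_pos hr hq)
      refine ⟨m, fun _ => ⟨hm, fun Q hQ => ?_⟩⟩
      obtain ⟨ω, hω, hωg⟩ := h Q hQ
      refine ⟨ω, ⟨hω.1, fun P l hP hl => ?_⟩, gen_of hωg⟩
      have h3 := hω.2 P l hP hl
      rw [Pi.zero_apply, mul_zero, neg_zero, zero_sub]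
      exact h3
    · exact ⟨1, fun h => absurd h hq⟩
  choose a ha using h1
  -- the orders
  have h2 : ∀ Q : Place ℂ K, ∃ e h : ℤ, Divisorial n Q → ∀ (m q : ℕ)
      (ω : (Fin n → Derivation ℂ K K) → K), IsTwistedSectionP y i n 0 (m * (r * q)) m ω →
        (ω E ≠ 0 → (m * q : ℤ) * e - m * h ≤ Q.ord (ω E)) ∧
        (GeneratesAtP y i n 0 (m * (r * q)) m ω Q →
          ω E ≠ 0 ∧ Q.ord (ω E) = (m * q : ℤ) * e - m * h) := by
    intro Q
    by_cases hQ : Divisorial n Q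
    · obtain ⟨e, h, h3⟩ := exists_local hy hn hfr hx hE hcar hi Q hQ
      exact ⟨e, h, fun _ => h3⟩
    · exact ⟨0, 0, fun h => absurd h hQ⟩
  choose e h he using h2
  have hord : OrdF n (fun q => VS y n (a q * (r * q)) (a q • A) E) a (fun Q => -e Q) h := by
    refine ⟨fun q hq => VS_fg hy hn hA E (Nat.mul_pos (ha q hq).1 (Nat.mul_pos hr hq)) (a q),
      fun q hq => (ha q hq).1, fun q hq P hP f hf hf0 => ?_, fun q hq P hP => ?_⟩
    · obtain ⟨ω, hω, rfl⟩ := mem_VS.1 hf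
      have h3 := (he P hP (a q) q ω ((twist_of hy hAP).1 hω)).1 hf0
      refine le_trans (le_of_eq ?_) h3
      ring
    · obtain ⟨ω, hω, hωg⟩ := (ha q hq).2 P hP
      obtain ⟨h3, h4⟩ := (he P hP (a q) q ω hω).2 hωg
      refine ⟨ω E, mem_VS.2 ⟨ω, (twist_of hy hAP).2 hω, rfl⟩, h3, ?_⟩
      rw [h4]
      ring
  -- the pull back
  obtain ⟨C, q0, hC, hq0, hCq⟩ := exists_pole hy hi φ
  obtain ⟨δ, hδ, hpb⟩ := exists_pb hy hy hn hn hcan hx hE hfr hfr hi hAP hAP φ hq0 hCq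
  obtain ⟨M, β, hlin⟩ := exists_lin hy hn hn0 hcan hA hx hE hfr
  refine ⟨a, r * M, M + β, C, ⟨hn, VH_fg, ⟨_, _, hord⟩, hC, deg_pos hn hn φ, fun q hq => ?_,
    fun q hq => ?_, exists_up' hy hy hn hn φ, exists_dn hy hn hi φ⟩, fun m b q hq hb => ?_⟩
  · have hCq1 : 1 ≤ C * q := Nat.mul_pos hC hq
    have hw : q0 ^ a (C * q) * δ ^ (a (C * q) * (r * (C * q))) ≠ 0 :=
      mul_ne_zero (pow_ne_zero _ hq0) (pow_ne_zero _ hδ)
    refine ⟨((q0 ^ a (C * q) * δ ^ (a (C * q) * (r * (C * q)))) ^ a q)⁻¹,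
      inv_ne_zero (pow_ne_zero _ hw), fun P hP f hf hf0 => ?_⟩
    obtain ⟨f₁, hf₁, rfl⟩ := mem_im.1 hf
    obtain ⟨ω, hω, rfl⟩ := mem_VS.1 hf₁
    obtain ⟨ω', hω', hω'E⟩ := hpb _ _ ω hω
    have e1 : a (C * q) * (r * (C * q)) = (C * a (C * q)) * (r * q) := by ring
    have h4 : IsTwistedSectionP y i n 0 ((C * a (C * q)) * (r * q)) (C * a (C * q)) ω' := by
      rw [← e1]
      exact (twist_of hy hAP).1 hω'
    have hne : ω' E ≠ 0 := by
      rw [hω'E]
      exact mul_ne_zero (pow_ne_zero _ hq0) (mul_ne_zero (pow_ne_zero _ hδ) hf0)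
    have h5 := (he P hP (C * a (C * q)) q ω' h4).1 hne
    obtain ⟨f', hf', hf'0, hf'o⟩ := hord.ex q hq P hP
    refine ⟨f', hf', hf'0, ?_⟩
    have h6 : P.ord (ω' E) = P.ord (q0 ^ a (C * q) * δ ^ (a (C * q) * (r * (C * q)))) +
        P.ord (φ (ω E)) := by
      rw [hω'E, ← mul_assoc, P.ord_mul hw hf0]
    rw [P.ord_inv, P.ord_pow, hf'o]
    rw [h6] at h5
    have h7 := mul_le_mul_of_nonneg_left h5 (show (0 : ℤ) ≤ a q from Int.natCast_nonneg _)
    push_cast at h7 ⊢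
    nlinarith
  · obtain ⟨h0, hd⟩ := hlin (a q * (r * q)) (a q) (Nat.mul_pos (ha q hq).1 (Nat.mul_pos hr hq))
    refine ⟨_, dom_mono hd (w := y i) (Submodule.subset_span ⟨i, rfl⟩) hi ?_⟩
    have h3 : M ≤ a q * M := Nat.le_mul_of_pos_left M (ha q hq).1
    calc (a q * (r * q) + 1) * M + a q * β = a q * (r * q) * M + M + a q * β := by ring
      _ ≤ a q * (r * q) * M + a q * M + a q * β := by omega
      _ = a q * (q * (r * M) + (M + β)) := by ring
  · refine ⟨one_ne_zero, fun P hP f hf hf0 => ?_⟩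
    obtain ⟨ω, hω, rfl⟩ := mem_VS.1 hf
    obtain ⟨f', hf', hf'0, hf'o⟩ := hord.ex q hq P hP
    refine ⟨f', hf', hf'0, ?_⟩
    have h3 : IsSection y n (m * (r * q)) (m • A) (fun D => ω D ^ (r * q)) := by
      refine ⟨pluri_pow hω.1 _, fun P hP D hD => ?_⟩
      rcases hω.2 P hP D hD with h4 | h4
      · left
        change ω D ^ (r * q) = 0
        rw [h4, zero_pow (Nat.mul_pos hr hq).ne']
      right
      change _ ≤ ((P.ord (ω D ^ (r * q)) : ℤ) : ℚ)
      rw [P.ord_pow]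
      rw [Pi.smul_apply, nsmul_eq_mul] at h4 ⊢
      have h5 : (0 : ℚ) ≤ ((r * q : ℕ) : ℚ) := Nat.cast_nonneg _
      have h6 := mul_le_mul_of_nonneg_left h4 h5
      have h7 : ((b * (r * q) : ℕ) : ℚ) ≤ m := by exact_mod_cast hb
      have h8 := mul_le_mul_of_nonneg_right h7 (hA.1 P hP)
      push_cast at h6 h8 ⊢
      nlinarith
    have h4 := (he P hP m q _ ((twist_of hy hAP).1 h3)).1 (pow_ne_zero _ hf0)
    change (m * q : ℤ) * e P - m * h P ≤ P.ord (ω E ^ (r * q)) at h4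
    rw [P.ord_pow] at h4
    rw [P.ord_one, add_zero, hf'o]
    have h5 := mul_le_mul_of_nonneg_left h4 (show (0 : ℤ) ≤ a q from Int.natCast_nonneg _)
    push_cast at h5 ⊢
    nlinarith

/-- positivity, if the numerical dimension is at least `j` -/
theorem GT_pos_of (hy : NormalModel y) (hn : Algebra.trdeg ℂ K = n) (hn0 : 0 < n)
    (hcan : Canonical y n) {r : ℕ} (hr : 1 ≤ r) {φ : K →ₐ[ℂ] K}
    {x : Fin n → K} {E : Fin n → Derivation ℂ K K} (hx : IsTranscendenceBasis ℂ x)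
    (hE : ∀ i j, E i (x j) = if i = j then 1 else 0) (hfr : IsFrame E) {i : Fin (N + 1)}
    (hi : y i ≠ 0) {A : Place ℂ K → ℚ} (hA : Effective y A)
    (hAP : ∀ P l, IsPrimeDivisor y P → Centred y l P → A P = P.ord (y i / y l)) {a : ℕ → ℕ}
    {M β C : ℕ} (hF : FamR n φ (VH y) (fun q => VS y n (a q * (r * q)) (a q • A) E) a M β C)
    (hdom : ∀ m b q : ℕ, 1 ≤ q → b * (r * q) ≤ m →
        Dom n (VS y n m (b • A) E) (VS y n (a q * (r * q)) (a q • A) E) (a q * (r * q)) m 1)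
    {j : ℕ} (hj : j ≤ n) (hnd : ¬ NumDimLt y n 0 j) :
    0 < GT φ (VH y) (fun q => VS y n (a q * (r * q)) (a q • A) E) a 0 j
      (Multiset.replicate (n - j) 0) := by
  have hess := hy.ess
  obtain ⟨M', β', hF'⟩ := exists_fam hy hn hn0 hcan hx hE hfr hi hA hAP
    (AlgEquiv.refl : K ≃ₐ[ℂ] K)
  obtain ⟨ε, hε, hlow⟩ := not_numDimLt hy hn hn0 hfr hi hA hAP hF' hj hnd
  refine lt_of_lt_of_le hε ?_
  refine ge_of_tendsto (GT_tendsto hF 0 (i := j) (s := Multiset.replicate (n - j) 0) (by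
    rw [Multiset.card_replicate]; omega)) ?_
  filter_upwards [eventually_ge_atTop 1] with q hq
  obtain ⟨m, ν, hm, hν, hle⟩ := hlow (r * q)
  have hνm : ν * (r * q) ≤ m := (Nat.mul_le_mul_left ν (Nat.le_succ _)).trans hν
  have hR : ∀ U ∈ Multiset.replicate (n - j) (VH y), U.FG := fun U hU => by
    rw [Multiset.eq_of_mem_replicate hU]
    exact VH_fg
  have h1 := MM_dom_rep hn (VS_fg hy hn hA E hm ν) (V_fg hF hq) (hdom m ν q hq hνm) j
    (R := Multiset.replicate (n - j) (VH y)) (by rw [Multiset.card_replicate]; omega) hR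
  have e1 : DYN.NN AlgEquiv.refl (VH y) (fun m b => VS y n m (b • A) E) j m ν
      (Multiset.replicate (n - j) 0) = MM (Multiset.replicate j (VS y n m (ν • A) E) +
        Multiset.replicate (n - j) (VH y)) := by
    unfold DYN.NN
    rw [Multiset.map_replicate, DYN.AA_zero]
  have e2 : NN φ (VH y) (fun q => VS y n (a q * (r * q)) (a q • A) E) 0 j q
      (Multiset.replicate (n - j) 0) = MM (Multiset.replicate j
        (VS y n (a q * (r * q)) (a q • A) E) + Multiset.replicate (n - j) (VH y)) := by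
    unfold NN UT
    rw [Multiset.map_replicate, AA_zero, pow_zero, im_one]
  rw [← e2] at h1
  rw [e1] at hle
  unfold QQ
  have ha1 : (0 : ℝ) < a q := by exact_mod_cast a_pos hF hq
  have hq0 : (0 : ℝ) < q := by exact_mod_cast hq
  have hr1 : (1 : ℝ) ≤ r := by exact_mod_cast hr
  have hm0 : (0 : ℝ) < m := by exact_mod_cast hm
  have h2 : ((a q : ℝ) * (r * q)) ^ j * (MM (Multiset.replicate j (VS y n m (ν • A) E) +
      Multiset.replicate (n - j) (VH y)) : ℝ) ≤ (m : ℝ) ^ j *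
      (NN φ (VH y) (fun q => VS y n (a q * (r * q)) (a q • A) E) 0 j q
        (Multiset.replicate (n - j) 0) : ℝ) := by exact_mod_cast h1
  obtain ⟨X, hX⟩ : ∃ X : ℝ, X = NN φ (VH y) (fun q => VS y n (a q * (r * q)) (a q • A) E) 0 j q
        (Multiset.replicate (n - j) 0) := ⟨_, rfl⟩
  obtain ⟨Z, hZ⟩ : ∃ Z : ℝ, Z = MM (Multiset.replicate j (VS y n m (ν • A) E) +
      Multiset.replicate (n - j) (VH y)) := ⟨_, rfl⟩
  rw [← hX, ← hZ] at h2
  rw [← hZ] at hle
  rw [← hX, le_div_iff₀ (by positivity)]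
  have h3 : ((a q : ℝ) * (r * q)) ^ j * (ε * (m : ℝ) ^ j) ≤ (m : ℝ) ^ j * X :=
    (mul_le_mul_of_nonneg_left hle (by positivity)).trans h2
  have h4 : ((a q : ℝ) * (r * q)) ^ j * ε ≤ X := by
    have hmj : (0 : ℝ) < (m : ℝ) ^ j := by positivity
    refine le_of_mul_le_mul_left ?_ hmj
    refine le_trans (le_of_eq ?_) h3
    ring
  refine le_trans ?_ h4
  have h5 : ((a q : ℝ) * q) ^ j ≤ ((a q : ℝ) * (r * q)) ^ j := by
    refine pow_le_pow_left₀ (by positivity) ?_ j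
    have h6 : (q : ℝ) ≤ r * q := by nlinarith
    exact mul_le_mul_of_nonneg_left h6 ha1.le
  nlinarith

end

end Pool.Agent.T2H06.DYR
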