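import Pool.Agent.T2H06.DYR.Emb

/-!
Linear systems whose minimal orders at all divisorial places are `-(a q) (q e + h)`: the
intersection numbers, divided by `a q`, are affine functions of `q`; limits and their denominators.
-/

set_option autoImplicit false
set_option linter.overlappingInstances false
set_option linter.unusedSectionVars false
set_option linter.unusedVariables false

open Filter Topology FF Module IntermediateField Pool.Agent.R887 Pool.Agent.W602.GT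
open Pool.Agent.T2H06.DYN

namespace Pool.Agent.T2H06.DYR

/-- the minimal orders of the elements of `U q` at the divisorial places are `-(a q) (q e + h)` -/
structure OrdF {K : Type} [Field K] [Algebra ℂ K] (n : ℕ) (U : ℕ → Submodule ℂ K) (a : ℕ → ℕ)
    (e h : Place ℂ K → ℤ) : Prop where
  fg : ∀ q, 1 ≤ q → (U q).FG
  pos : ∀ q, 1 ≤ q → 1 ≤ a q
  ge : ∀ q, 1 ≤ q → ∀ P, Divisorial n P → ∀ f ∈ U q, f ≠ 0 →
    -((a q : ℤ) * (q * e P + h P)) ≤ P.ord f
  ex : ∀ q, 1 ≤ q → ∀ P, Divisorial n P → ∃ f ∈ U q, f ≠ 0 ∧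
    P.ord f = -((a q : ℤ) * (q * e P + h P))

section one

variable {K : Type} [Field K] [Algebra ℂ K] {n : ℕ}

/-- the largest degree of a pencil is the degree of the divisor of the minimal orders -/
theorem exists_div {s : Multiset K} [IsFF (fl s) K] {V : Submodule ℂ K} (hV : V.FG)
    {o : Place (fl s) K → ℤ} (hge : ∀ P, ∀ f ∈ V, f ≠ 0 → -(o P) ≤ P.ord f)
    (hex : ∀ P, ∃ f ∈ V, f ≠ 0 ∧ P.ord f = -(o P)) :
    ∃ D : Place (fl s) K →₀ ℤ, (∀ P, D P = o P) ∧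
      (∀ x, Pen V x → (md (x ::ₘ s) : ℤ) ≤ ddeg D) ∧
      ∃ x, Pen V x ∧ (md (x ::ₘ s) : ℤ) = ddeg D := by
  classical
  obtain ⟨S, hS⟩ := hV
  have hfin : {P | o P ≠ 0}.Finite := by
    refine (S.finite_toSet.biUnion fun t _ => finite_support (k := fl s) t).subset ?_
    intro P hP
    by_contra hcon
    simp only [Set.mem_iUnion, not_exists] at hcon
    apply hP
    have h0 : ∀ t ∈ S, P.ord t = 0 := by
      intro t ht
      by_contra h1
      exact hcon t ht h1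
    obtain ⟨f, hf, hf0, hfo⟩ := hex P
    rw [← hS] at hf
    obtain ⟨t, ht, ht0, hle⟩ := exists_ord_le P hf hf0
    have h1 := hge P t (by rw [← hS]; exact Submodule.subset_span ht) ht0
    rw [h0 t ht] at h1 hle
    omega
  obtain ⟨D, hD⟩ : ∃ D : Place (fl s) K →₀ ℤ, ∀ P, D P = o P :=
    ⟨Finsupp.ofSupportFinite o hfin, fun P => rfl⟩
  have hle : ∀ x, Pen V x → (md (x ::ₘ s) : ℤ) ≤ ddeg D := by
    rintro _ ⟨a, ha, b, hb, hb0, rfl⟩
    have h3 : polar (k := fl s) (a / b) ≤ divisor (fl s) b + D := by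
      intro P
      rw [polar_apply, Finsupp.add_apply, divisor_apply, hD]
      have h4 := hge P b hb hb0
      refine max_le ?_ (by omega)
      by_cases ha0 : a = 0
      · rw [ha0, zero_div, P.ord_zero]
        omega
      · rw [P.ord_div ha0 hb0]
        have h5 := hge P a ha ha0
        omega
    have h4 := ddeg_mono h3
    rw [ddeg_add, ddeg_divisor, ddeg_polar_all, zero_add] at h4
    rw [md_one]
    exact h4
  refine ⟨D, hD, hle, ?_⟩
  have hS0 : ∃ t ∈ (S : Set K), t ≠ 0 := by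
    obtain ⟨P, -⟩ := exists_place (k := fl s) (K := K)
    obtain ⟨f, hf, hf0, -⟩ := hex P
    rw [← hS] at hf
    obtain ⟨t, ht, ht0, -⟩ := exists_ord_le P hf hf0
    exact ⟨t, ht, ht0⟩
  obtain ⟨v₁, hv₁, v₀, hv₀, hv₁0, hv₀0, hg, -⟩ := gen_pair (M₁ := fl s) (M₂ := fl s)
    (S.finite_toSet) hS0
  have hpen : Pen V (v₁ / v₀) := by
    refine ⟨v₁, ?_, v₀, ?_, hv₀0, rfl⟩
    · rw [← hS]; exact hv₁
    · rw [← hS]; exact hv₀
  refine ⟨v₁ / v₀, hpen, le_antisymm (hle _ hpen) ?_⟩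
  have h3 : divisor (fl s) v₀ + D ≤ polar (k := fl s) (v₁ / v₀) := by
    intro P
    rw [Finsupp.add_apply, divisor_apply, hD]
    obtain ⟨f, hf, hf0, hfo⟩ := hex P
    rw [← hS] at hf
    obtain ⟨t, ht, ht0, hlet⟩ := exists_ord_le P hf hf0
    have h4 := hg P t ht ht0
    omega
  have h4 := ddeg_mono h3
  rw [ddeg_add, ddeg_divisor, ddeg_polar_all, zero_add] at h4
  rw [md_one]
  exact h4

/-- **The intersection numbers, divided by `a q`, are affine functions of `q`.** -/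
theorem OrdF.affine (hn : Algebra.trdeg ℂ K = n) {U : ℕ → Submodule ℂ K} {a : ℕ → ℕ}
    {e h : Place ℂ K → ℤ} (hU : OrdF n U a e h) {L : Multiset (Submodule ℂ K)}
    (hc : L.card + 1 = n) (hL : ∀ V ∈ L, V.FG) (p : ℕ) :
    a 1 * a 2 * MM (U (p + 2) ::ₘ L) + p * a (p + 2) * a 2 * MM (U 1 ::ₘ L) =
      (p + 1) * a (p + 2) * a 1 * MM (U 2 ::ₘ L) := by
  classical
  have hn' : ∀ (V : Submodule ℂ K), Algebra.trdeg ℂ K = (V ::ₘ L).card := by
    intro V
    rw [Multiset.card_cons, hc, hn]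
  have hL' : ∀ {V : Submodule ℂ K}, V.FG → ∀ W ∈ (V ::ₘ L), W.FG := by
    intro V hV W hW
    rcases Multiset.mem_cons.1 hW with rfl | hW
    · exact hV
    exact hL W hW
  have hcs : ∀ {s : Multiset K}, Sel L s → s.card + 1 = n := fun {s} hs => by
    rw [← hs.card, hc]
  -- the relation for one selection
  have key : ∀ {s : Multiset K} {x : K}, Sel L s → md (x ::ₘ s) ≠ 0 →
      ∃ d : ℕ → ℕ, (∀ q, 1 ≤ q → (∀ z, Pen (U q) z → md (z ::ₘ s) ≤ d q) ∧
        ∃ z, Pen (U q) z ∧ md (z ::ₘ s) = d q) ∧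
        a 1 * a 2 * d (p + 2) + p * a (p + 2) * a 2 * d 1 = (p + 1) * a (p + 2) * a 1 * d 2 := by
    intro s x hs hx
    have hsc := hcs hs
    obtain ⟨hff, htr, u, hu, hui⟩ := md_ff (by rw [hsc, hn]) hx
    have hdv := fun P => down_divisorial hsc hu hui P
    have h1 : ∀ q, 1 ≤ q → ∃ D : Place (fl s) K →₀ ℤ,
        (∀ P, D P = (a q : ℤ) * (q * e (down (fl s) P) + h (down (fl s) P))) ∧
        (∀ x, Pen (U q) x → (md (x ::ₘ s) : ℤ) ≤ ddeg D) ∧
        ∃ x, Pen (U q) x ∧ (md (x ::ₘ s) : ℤ) = ddeg D := fun q hq =>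
      exists_div (hU.fg q hq) (fun P f hf hf0 => hU.ge q hq _ (hdv P) f hf hf0)
        (fun P => hU.ex q hq _ (hdv P))
    choose! D hD1 hD2 hD3 using h1
    choose! z hz1 hz2 using hD3
    refine ⟨fun q => md (z q ::ₘ s), fun q hq => ⟨fun w hw => ?_, z q, hz1 q hq, rfl⟩, ?_⟩
    · have h2 := hD2 q hq w hw
      rw [← hz2 q hq] at h2
      exact_mod_cast h2
    · have h2 : ((a 1 * a 2 : ℕ)) • D (p + 2) + (p * a (p + 2) * a 2) • D 1 =
          ((p + 1) * a (p + 2) * a 1) • D 2 := by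
        ext P
        rw [Finsupp.add_apply, Finsupp.smul_apply, Finsupp.smul_apply, Finsupp.smul_apply,
          hD1 _ (by omega), hD1 _ le_rfl, hD1 _ (by omega), nsmul_eq_mul, nsmul_eq_mul,
          nsmul_eq_mul]
        push_cast
        ring
      have h3 := congrArg ddeg h2
      rw [ddeg_add, ddeg_nsmul, ddeg_nsmul, ddeg_nsmul, ← hz2 _ (by omega), ← hz2 _ le_rfl,
        ← hz2 _ (by omega)] at h3
      exact_mod_cast h3
  have hle : ∀ {s : Multiset K} {q : ℕ}, 1 ≤ q → Sel L s → ∀ z, Pen (U q) z →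
      md (z ::ₘ s) ≤ MM (U q ::ₘ L) := by
    intro s q hq hs z hz
    exact le_MM (hn' _) (hL' (hU.fg q hq)) (sel_cons.2 ⟨z, s, hz, hs, rfl⟩)
  have hatt : ∀ {q : ℕ}, 1 ≤ q → MM (U q ::ₘ L) ≠ 0 → ∃ z s, Pen (U q) z ∧ Sel L s ∧
      md (z ::ₘ s) = MM (U q ::ₘ L) := by
    intro q hq h0
    obtain ⟨l, hl, he⟩ := exists_MM (hn' _) (hL' (hU.fg q hq)) h0
    obtain ⟨z, s, hz, hs, rfl⟩ := sel_cons.1 hl
    exact ⟨z, s, hz, hs, he⟩
  apply le_antisymm
  · -- a selection with two large degrees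
    have hsel : (MM (U (p + 2) ::ₘ L) = 0 ∧ MM (U 1 ::ₘ L) = 0) ∨ ∃ s x, Sel L s ∧
        md (x ::ₘ s) ≠ 0 ∧ (∃ z, MM (U (p + 2) ::ₘ L) = 0 ∨ (Pen (U (p + 2)) z ∧
          MM (U (p + 2) ::ₘ L) ≤ md (z ::ₘ s))) ∧ (∃ z, MM (U 1 ::ₘ L) = 0 ∨ (Pen (U 1) z ∧
          MM (U 1 ::ₘ L) ≤ md (z ::ₘ s))) := by
      by_cases hA : MM (U (p + 2) ::ₘ L) = 0
      · by_cases hB : MM (U 1 ::ₘ L) = 0
        · exact Or.inl ⟨hA, hB⟩
        · right
          obtain ⟨z, s, hz, hs, he⟩ := hatt le_rfl hB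
          exact ⟨s, z, hs, by rw [he]; exact hB, ⟨0, Or.inl hA⟩, z, Or.inr ⟨hz, he.ge⟩⟩
      · right
        obtain ⟨z, s, hz, hs, he⟩ := hatt (by omega) hA
        by_cases hB : MM (U 1 ::ₘ L) = 0
        · exact ⟨s, z, hs, by rw [he]; exact hA, ⟨z, Or.inr ⟨hz, he.ge⟩⟩, 0, Or.inl hB⟩
        · obtain ⟨z', s', hz', hs', he'⟩ := hatt le_rfl hB
          obtain ⟨τ, hτ, h5, h6⟩ := select L (B₁ := {z}) (B₂ := {z'}) hs hs'
            (by rw [hn, ← hc, Multiset.card_singleton, add_comm])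
            (by rw [hn, ← hc, Multiset.card_singleton, add_comm])
          rw [Multiset.singleton_add, Multiset.singleton_add] at h5 h6
          refine ⟨τ, z, hτ, ?_, ⟨z, Or.inr ⟨hz, by rw [← he]; exact h5⟩⟩, z',
            Or.inr ⟨hz', by rw [← he']; exact h6⟩⟩
          intro h0
          rw [h0, he] at h5
          omega
    rcases hsel with ⟨hA, hB⟩ | ⟨s, x, hs, hx, ⟨z, hz⟩, z', hz'⟩
    · rw [hA, hB, mul_zero, mul_zero, add_zero]
      exact Nat.zero_le _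
    · obtain ⟨d, hd, hrel⟩ := key hs hx
      have h1 : MM (U (p + 2) ::ₘ L) ≤ d (p + 2) := by
        rcases hz with h | ⟨h, h'⟩
        · rw [h]; exact Nat.zero_le _
        · exact h'.trans ((hd _ (by omega)).1 z h)
      have h2 : MM (U 1 ::ₘ L) ≤ d 1 := by
        rcases hz' with h | ⟨h, h'⟩
        · rw [h]; exact Nat.zero_le _
        · exact h'.trans ((hd _ le_rfl).1 z' h)
      have h3 : d 2 ≤ MM (U 2 ::ₘ L) := by
        obtain ⟨w, hw, hwe⟩ := (hd 2 (by omega)).2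
        rw [← hwe]
        exact hle (by omega) hs w hw
      calc a 1 * a 2 * MM (U (p + 2) ::ₘ L) + p * a (p + 2) * a 2 * MM (U 1 ::ₘ L)
          ≤ a 1 * a 2 * d (p + 2) + p * a (p + 2) * a 2 * d 1 :=
            Nat.add_le_add (Nat.mul_le_mul_left _ h1) (Nat.mul_le_mul_left _ h2)
        _ = (p + 1) * a (p + 2) * a 1 * d 2 := hrel
        _ ≤ _ := Nat.mul_le_mul_left _ h3
  · by_cases hC : MM (U 2 ::ₘ L) = 0
    · rw [hC, mul_zero]
      exact Nat.zero_le _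
    · obtain ⟨z, s, hz, hs, he⟩ := hatt (by omega) hC
      obtain ⟨d, hd, hrel⟩ := key hs (x := z) (by rw [he]; exact hC)
      have h3 : MM (U 2 ::ₘ L) ≤ d 2 := by
        rw [← he]
        exact (hd 2 (by omega)).1 z hz
      have h1 : d (p + 2) ≤ MM (U (p + 2) ::ₘ L) := by
        obtain ⟨w, hw, hwe⟩ := (hd (p + 2) (by omega)).2
        rw [← hwe]
        exact hle (by omega) hs w hw
      have h2 : d 1 ≤ MM (U 1 ::ₘ L) := by
        obtain ⟨w, hw, hwe⟩ := (hd 1 le_rfl).2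
        rw [← hwe]
        exact hle le_rfl hs w hw
      calc (p + 1) * a (p + 2) * a 1 * MM (U 2 ::ₘ L)
          ≤ (p + 1) * a (p + 2) * a 1 * d 2 := Nat.mul_le_mul_left _ h3
        _ = a 1 * a 2 * d (p + 2) + p * a (p + 2) * a 2 * d 1 := hrel.symm
        _ ≤ _ := Nat.add_le_add (Nat.mul_le_mul_left _ h1) (Nat.mul_le_mul_left _ h2)

/-- the limit of the normalised intersection numbers -/
noncomputable def gam (U : ℕ → Submodule ℂ K) (a : ℕ → ℕ) : ℕ → Multiset (Submodule ℂ K) → ℝ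
  | 0, L => MM L
  | i + 1, L => gam U a i (U 2 ::ₘ L) / a 2 - gam U a i (U 1 ::ₘ L) / a 1

theorem OrdF.tendsto (hn : Algebra.trdeg ℂ K = n) {U : ℕ → Submodule ℂ K} {a : ℕ → ℕ}
    {e h : Place ℂ K → ℤ} (hU : OrdF n U a e h) (i : ℕ) : ∀ {L : Multiset (Submodule ℂ K)},
    i + L.card = n → (∀ V ∈ L, V.FG) →
    Tendsto (fun q : ℕ => (MM (Multiset.replicate i (U q) + L) : ℝ) / ((a q : ℝ) * q) ^ i) atTop
      (𝓝 (gam U a i L)) := by
  induction i with
  | zero =>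
    intro L _ _
    unfold gam
    simp only [Multiset.replicate_zero, zero_add, pow_zero, div_one]
    exact tendsto_const_nhds
  | succ i ih =>
    intro L hc hL
    have hcons : ∀ {V : Submodule ℂ K}, V.FG → ∀ W ∈ (V ::ₘ L), W.FG := by
      intro V hV W hW
      rcases Multiset.mem_cons.1 hW with rfl | hW
      · exact hV
      exact hL W hW
    have h2 := ih (L := U 2 ::ₘ L) (by rw [Multiset.card_cons]; omega)
      (hcons (hU.fg 2 (by omega)))
    have h1 := ih (L := U 1 ::ₘ L) (by rw [Multiset.card_cons]; omega)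
      (hcons (hU.fg 1 le_rfl))
    have hq : ∀ c : ℝ, Tendsto (fun q : ℕ => ((q : ℝ) - c) / q) atTop (𝓝 1) := by
      intro c
      have h3 := (tendsto_const_div_atTop_nhds_zero_nat c).const_sub 1
      rw [sub_zero] at h3
      refine h3.congr' ?_
      filter_upwards [eventually_gt_atTop 0] with q hq
      have hq0 : (q : ℝ) ≠ 0 := by
        have : (0 : ℝ) < q := by exact_mod_cast hq
        exact this.ne'
      field_simp
    have h3 := (((hq 1).mul h2).div_const (a 2 : ℝ)).sub (((hq 2).mul h1).div_const (a 1 : ℝ))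
    rw [one_mul, one_mul] at h3
    unfold gam
    refine h3.congr' ?_
    filter_upwards [eventually_ge_atTop 2] with q hq2
    obtain ⟨p, rfl⟩ : ∃ p, q = p + 2 := ⟨q - 2, by omega⟩
    have hL' : ∀ V ∈ Multiset.replicate i (U (p + 2)) + L, V.FG := by
      intro V hV
      rcases Multiset.mem_add.1 hV with h4 | h4
      · rw [Multiset.eq_of_mem_replicate h4]
        exact hU.fg _ (by omega)
      · exact hL V h4
    have h4 := hU.affine hn (L := Multiset.replicate i (U (p + 2)) + L) (by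
      rw [Multiset.card_add, Multiset.card_replicate]; omega) hL' p
    have ha1 : (0 : ℝ) < a 1 := by exact_mod_cast hU.pos 1 le_rfl
    have ha2 : (0 : ℝ) < a 2 := by exact_mod_cast hU.pos 2 (by omega)
    have haq : (0 : ℝ) < a (p + 2) := by exact_mod_cast hU.pos (p + 2) (by omega)
    rw [Multiset.add_cons, Multiset.add_cons, Multiset.replicate_succ, Multiset.cons_add]
    obtain ⟨A, hA⟩ : ∃ A : ℝ, A = MM (U (p + 2) ::ₘ (Multiset.replicate i (U (p + 2)) + L)) :=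
      ⟨_, rfl⟩
    obtain ⟨B, hB⟩ : ∃ B : ℝ, B = MM (U 1 ::ₘ (Multiset.replicate i (U (p + 2)) + L)) := ⟨_, rfl⟩
    obtain ⟨C, hC⟩ : ∃ C : ℝ, C = MM (U 2 ::ₘ (Multiset.replicate i (U (p + 2)) + L)) := ⟨_, rfl⟩
    have h5 : (a 1 : ℝ) * a 2 * A + p * a (p + 2) * a 2 * B = (p + 1) * a (p + 2) * a 1 * C := by
      rw [hA, hB, hC]
      exact_mod_cast h4
    rw [← hA, ← hB, ← hC]
    have hp2 : (0 : ℝ) < (p : ℝ) + 2 := by positivity
    push_cast
    have h6 : A = ((p + 1) * a (p + 2) * a 1 * C - p * a (p + 2) * a 2 * B) / (a 1 * a 2) := by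
      rw [eq_div_iff (mul_pos ha1 ha2).ne', ← h5]
      ring
    rw [h6, pow_succ]
    field_simp
    ring

theorem gam_int {U : ℕ → Submodule ℂ K} {a : ℕ → ℕ} (h1 : 1 ≤ a 1) (h2 : 1 ≤ a 2) (i : ℕ) :
    ∀ L : Multiset (Submodule ℂ K), ∃ z : ℤ, ((a 1 : ℝ) * a 2) ^ i * gam U a i L = z := by
  have ha1 : (0 : ℝ) < a 1 := by exact_mod_cast h1
  have ha2 : (0 : ℝ) < a 2 := by exact_mod_cast h2
  induction i with
  | zero =>
    intro L
    refine ⟨MM L, ?_⟩
    unfold gam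
    push_cast
    ring
  | succ i ih =>
    intro L
    obtain ⟨z₂, hz₂⟩ := ih (U 2 ::ₘ L)
    obtain ⟨z₁, hz₁⟩ := ih (U 1 ::ₘ L)
    refine ⟨a 1 * z₂ - a 2 * z₁, ?_⟩
    unfold gam
    push_cast
    rw [← hz₂, ← hz₁, pow_succ]
    field_simp

theorem gam_ge {U : ℕ → Submodule ℂ K} {a : ℕ → ℕ} (h1 : 1 ≤ a 1) (h2 : 1 ≤ a 2) {i : ℕ}
    {L : Multiset (Submodule ℂ K)} (h : 0 < gam U a i L) :
    1 / ((a 1 : ℝ) * a 2) ^ i ≤ gam U a i L := by
  have ha1 : (0 : ℝ) < a 1 := by exact_mod_cast h1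
  have ha2 : (0 : ℝ) < a 2 := by exact_mod_cast h2
  have hp : (0 : ℝ) < ((a 1 : ℝ) * a 2) ^ i := by positivity
  obtain ⟨z, hz⟩ := gam_int h1 h2 i L (U := U)
  have h3 : (0 : ℝ) < z := by
    rw [← hz]
    exact mul_pos hp h
  have h4 : (1 : ℝ) ≤ z := by
    have : 0 < z := by exact_mod_cast h3
    exact_mod_cast this
  rw [div_le_iff₀ hp, mul_comm, hz]
  exact h4

end one

section map

variable {K : Type} [Field K] [Algebra ℂ K] {n : ℕ}

/-- the minimal orders of the images under an embedding -/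
theorem OrdF.map [Algebra.EssFiniteType ℂ K] (hn : Algebra.trdeg ℂ K = n)
    {U : ℕ → Submodule ℂ K} {a : ℕ → ℕ}
    {e h : Place ℂ K → ℤ} (hU : OrdF n U a e h) (φ : K →ₐ[ℂ] K) :
    ∃ e' h', OrdF n (fun q => im φ (U q)) a e' h' := by
  classical
  have hex : ∀ Q : Place ℂ K, ∃ (P : Place ℂ K) (ε : ℕ), Divisorial n Q → 1 ≤ ε ∧
      Divisorial n P ∧ ∀ f, Q.ord (φ f) = ε * P.ord f := by
    intro Q
    by_cases hQ : Divisorial n Q
    · obtain ⟨P, ε, h1⟩ := exists_under hn hn φ hQ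
      exact ⟨P, ε, fun _ => h1⟩
    · exact ⟨Q, 0, fun h => absurd h hQ⟩
  choose P ε hP using hex
  refine ⟨fun Q => ε Q * e (P Q), fun Q => ε Q * h (P Q), fun q hq => im_fg (hU.fg q hq), hU.pos,
    fun q hq Q hQ f hf hf0 => ?_, fun q hq Q hQ => ?_⟩
  · obtain ⟨f₁, hf₁, rfl⟩ := mem_im.1 hf
    have hf₁0 : f₁ ≠ 0 := fun h0 => hf0 (by rw [h0, map_zero])
    obtain ⟨h1, h2, h3⟩ := hP Q hQ
    have h4 := hU.ge q hq _ h2 f₁ hf₁ hf₁0
    rw [h3]
    have h5 := mul_le_mul_of_nonneg_left h4 (show (0 : ℤ) ≤ ε Q from Int.natCast_nonneg _)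
    refine le_trans (le_of_eq ?_) h5
    ring
  · obtain ⟨h1, h2, h3⟩ := hP Q hQ
    obtain ⟨f, hf, hf0, hfo⟩ := hU.ex q hq _ h2
    refine ⟨φ f, ⟨f, hf, rfl⟩, by rwa [Ne, map_eq_zero], ?_⟩
    rw [h3, hfo]
    ring

end map

end Pool.Agent.T2H06.DYR
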