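import Pool.Agent.T2H06.DYN.Sup
import Pool.Agent.R887.Num

/-!
The intersection numbers of linear systems are multiplied by the degree under embeddings of the
field; the restriction of places; domination is preserved by embeddings.
-/

set_option autoImplicit false
set_option linter.overlappingInstances false
set_option linter.unusedSectionVars false
set_option linter.unusedVariables false

open FF Module IntermediateField Pool.Agent.R887 Pool.Agent.W602.GT Pool.Agent.Y172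
open Pool.Agent.T2H06.DYN Pool.Agent.W619.PQ

namespace Pool.Agent.T2H06.DYR

section two

variable {K K' : Type} [Field K] [Algebra ℂ K] [Field K'] [Algebra ℂ K']

/-- the image of a linear system -/
def im (φ : K →ₐ[ℂ] K') (V : Submodule ℂ K) : Submodule ℂ K' := V.map φ.toLinearMap

theorem mem_im {φ : K →ₐ[ℂ] K'} {V : Submodule ℂ K} {x : K'} :
    x ∈ im φ V ↔ ∃ y ∈ V, φ y = x := Iff.rfl

theorem im_fg {φ : K →ₐ[ℂ] K'} {V : Submodule ℂ K} (h : V.FG) : (im φ V).FG := h.map _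

theorem pen_im {φ : K →ₐ[ℂ] K'} {V : Submodule ℂ K} {x : K'} :
    Pen (im φ V) x ↔ ∃ x', Pen V x' ∧ φ x' = x := by
  constructor
  · rintro ⟨a, ha, b, hb, hb0, rfl⟩
    obtain ⟨a', ha', rfl⟩ := mem_im.1 ha
    obtain ⟨b', hb', rfl⟩ := mem_im.1 hb
    refine ⟨a' / b', ⟨a', ha', b', hb', fun h => hb0 (by rw [h, map_zero]), rfl⟩, map_div₀ φ _ _⟩
  · rintro ⟨x', ⟨a, ha, b, hb, hb0, rfl⟩, rfl⟩
    refine ⟨φ a, ⟨a, ha, rfl⟩, φ b, ⟨b, hb, rfl⟩, ?_, map_div₀ φ _ _⟩
    rwa [Ne, map_eq_zero]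

theorem md_map (φ : K →ₐ[ℂ] K') (l : Multiset K) :
    md (l.map φ) = mapDegree φ * md l := by
  have h1 : fl (l.map φ) = (fl l).map φ := by
    unfold fl
    rw [IntermediateField.adjoin_map]
    congr 1
    ext a
    simp only [Multiset.mem_map, Set.mem_ofPred_eq, Set.mem_image]
  have h2 : (fl l).map φ ≤ φ.fieldRange := by
    rintro _ ⟨x, -, rfl⟩
    exact ⟨x, rfl⟩
  have h3 := IntermediateField.relfinrank_mul_finrank_top h2
  have h4 := IntermediateField.relfinrank_map_map (A := fl l) (B := ⊤) φ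
  have h5 : (⊤ : IntermediateField ℂ K).map φ = φ.fieldRange := by
    rw [AlgHom.fieldRange_eq_map]
  rw [h5, IntermediateField.relfinrank_top_right] at h4
  unfold md mapDegree
  rw [h1, ← h3, h4, mul_comm]

theorem sel_map_iff {φ : K →ₐ[ℂ] K'} {L : Multiset (Submodule ℂ K)} {l : Multiset K'} :
    Sel (L.map (im φ)) l ↔ ∃ l', Sel L l' ∧ l'.map φ = l := by
  constructor
  · intro h
    induction L using Multiset.induction_on generalizing l with
    | empty =>
      rw [Multiset.map_zero] at h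
      have e : l = 0 := Multiset.rel_zero_left.1 h
      exact ⟨0, Multiset.Rel.zero, by rw [e, Multiset.map_zero]⟩
    | cons V L ih =>
      rw [Multiset.map_cons] at h
      obtain ⟨x, l₁, hx, hl₁, rfl⟩ := sel_cons.1 h
      obtain ⟨l', hl', rfl⟩ := ih hl₁
      obtain ⟨x', hx', rfl⟩ := pen_im.1 hx
      exact ⟨x' ::ₘ l', sel_cons.2 ⟨x', l', hx', hl', rfl⟩, by rw [Multiset.map_cons]⟩
  · rintro ⟨l', hl', rfl⟩
    unfold Sel at *
    rw [Multiset.rel_map]
    exact hl'.mono fun V _ x _ hx => pen_im.2 ⟨x, hx, rfl⟩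

/-- **Intersection numbers and embeddings.** -/
theorem MM_map (φ : K →ₐ[ℂ] K') {L : Multiset (Submodule ℂ K)}
    (hn : Algebra.trdeg ℂ K = L.card) (hn' : Algebra.trdeg ℂ K' = L.card)
    (hL : ∀ V ∈ L, V.FG) : MM (L.map (im φ)) = mapDegree φ * MM L := by
  have hL' : ∀ V ∈ L.map (im φ), V.FG := by
    intro V hV
    obtain ⟨W, hW, rfl⟩ := Multiset.mem_map.1 hV
    exact im_fg (hL W hW)
  apply le_antisymm
  · refine MM_le fun l hl => ?_
    obtain ⟨l', hl', rfl⟩ := sel_map_iff.1 hl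
    rw [md_map]
    exact Nat.mul_le_mul_left _ (le_MM hn hL hl')
  · by_cases h0 : MM L = 0
    · rw [h0, mul_zero]
      exact Nat.zero_le _
    · obtain ⟨l, hl, he⟩ := exists_MM hn hL h0
      rw [← he, ← md_map]
      exact le_MM (by rw [Multiset.card_map]; exact hn') hL' (sel_map_iff.2 ⟨l, hl, rfl⟩)

/-- the restriction of a divisorial place along an embedding -/
theorem exists_under {n : ℕ} [Algebra.EssFiniteType ℂ K'] (hn : Algebra.trdeg ℂ K = n)
    (hn' : Algebra.trdeg ℂ K' = n) (φ : K →ₐ[ℂ] K') {Q : Place ℂ K'} (hQ : Divisorial n Q) :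
    ∃ (P : Place ℂ K) (e : ℕ), 1 ≤ e ∧ Divisorial n P ∧ ∀ f, Q.ord (φ f) = e * P.ord f := by
  let _ : Algebra K K' := φ.toRingHom.toAlgebra
  have hst : IsScalarTower ℂ K K' := IsScalarTower.of_algebraMap_eq fun c => (φ.commutes c).symm
  have hfd : FiniteDimensional K K' := finite_map hn hn'
  have halg : Algebra.IsAlgebraic K K' := inferInstance
  obtain ⟨P, e, h⟩ := exists_below (k := ℂ) (K := K) (L := K') Q
  exact ⟨P, e, h.1, divisorial_down h hQ, h.2⟩

/-- **Domination is preserved by embeddings.** -/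
theorem dom_map {n : ℕ} [Algebra.EssFiniteType ℂ K'] (hn : Algebra.trdeg ℂ K = n)
    (hn' : Algebra.trdeg ℂ K' = n) (φ : K →ₐ[ℂ] K') {V V' : Submodule ℂ K} {a b : ℕ} {h : K}
    (hd : Dom n V V' a b h) : Dom n (im φ V) (im φ V') a b (φ h) := by
  refine ⟨by rw [Ne, map_eq_zero]; exact hd.1, fun Q hQ f hf hf0 => ?_⟩
  obtain ⟨f₁, hf₁, rfl⟩ := mem_im.1 hf
  have hf₁0 : f₁ ≠ 0 := fun h0 => hf0 (by rw [h0, map_zero])
  obtain ⟨P, e, he, hP, hPQ⟩ := exists_under hn hn' φ hQ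
  obtain ⟨f', hf', hf'0, hle⟩ := hd.2 P hP f₁ hf₁ hf₁0
  refine ⟨φ f', ⟨f', hf', rfl⟩, by rwa [Ne, map_eq_zero], ?_⟩
  rw [hPQ, hPQ, hPQ]
  have h1 := mul_le_mul_of_nonneg_left hle (show (0 : ℤ) ≤ e from Int.natCast_nonneg _)
  nlinarith

theorem dom_trans {n : ℕ} {V V' V'' : Submodule ℂ K} {a b a' b' : ℕ} {h h' : K}
    (h1 : Dom n V V' a b h) (h2 : Dom n V' V'' a' b' h') :
    Dom n V V'' (a * a') (b * b') (h ^ a' * h' ^ b) := by
  refine ⟨mul_ne_zero (pow_ne_zero _ h1.1) (pow_ne_zero _ h2.1), fun P hP f hf hf0 => ?_⟩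
  obtain ⟨f', hf', hf'0, hle⟩ := h1.2 P hP f hf hf0
  obtain ⟨f'', hf'', hf''0, hle'⟩ := h2.2 P hP f' hf' hf'0
  refine ⟨f'', hf'', hf''0, ?_⟩
  rw [P.ord_mul (pow_ne_zero _ h1.1) (pow_ne_zero _ h2.1), P.ord_pow, P.ord_pow]
  have h3 := mul_le_mul_of_nonneg_left hle (show (0 : ℤ) ≤ a' from Int.natCast_nonneg _)
  have h4 := mul_le_mul_of_nonneg_left hle' (show (0 : ℤ) ≤ b from Int.natCast_nonneg _)
  push_cast
  nlinarith

end two

section one

variable {K : Type} [Field K] [Algebra ℂ K]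

theorem im_im (φ ψ : K →ₐ[ℂ] K) (V : Submodule ℂ K) : im φ (im ψ V) = im (φ * ψ) V := by
  ext x
  simp only [mem_im]
  constructor
  · rintro ⟨y, ⟨z, hz, rfl⟩, rfl⟩
    exact ⟨z, hz, rfl⟩
  · rintro ⟨z, hz, rfl⟩
    exact ⟨ψ z, ⟨z, hz, rfl⟩, rfl⟩

theorem im_one (V : Submodule ℂ K) : im (1 : K →ₐ[ℂ] K) V = V := by
  ext x
  simp only [mem_im]
  constructor
  · rintro ⟨y, hy, rfl⟩
    exact hy
  · intro hx
    exact ⟨x, hx, rfl⟩

end one

end Pool.Agent.T2H06.DYR
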