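import Pool.Agent.T2H06.DYR.LimS
import Pool.Agent.T2H06.DYN.GeoD
import Pool.Agent.R887.Pull
import Pool.Agent.R887.GapA

/-!
The linear systems of the sections of `m (q r K_X + H)` and the pull back by dominant rational
self-maps.
-/

set_option autoImplicit false
set_option linter.overlappingInstances false
set_option linter.unusedSectionVars false
set_option linter.unusedVariables false

open FF MvPolynomial Pool.Agent.W602.GT Pool.Agent.W603.LV Pool.Agent.W619.PQ
open Pool.Agent.Y172 Pool.Agent.Y191 Pool.Agent.R887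
open Pool.Agent.T2H06.DYN (MM MM_dom MM_dom_rep MM_four Dom VH VH_fg mem_VH pen_VH VS mem_VS VS_fg
  exists_lin sec_ord exists_ord_le)

namespace Pool.Agent.T2H06.DYR

section pull

variable {K K' : Type} [Field K] [Algebra ℂ K] [Field K'] [Algebra ℂ K'] {N N' n : ℕ}
  {y : Fin (N + 1) → K} {y' : Fin (N' + 1) → K'}

/-- **The pull back of sections.** -/
theorem exists_pb (hy : NormalModel y) (hy' : NormalModel y') (hn : Algebra.trdeg ℂ K = n)
    (hn' : Algebra.trdeg ℂ K' = n) (hcan : Canonical y n)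
    {x : Fin n → K} {E : Fin n → Derivation ℂ K K} (hx : IsTranscendenceBasis ℂ x)
    (hE : ∀ i j, E i (x j) = if i = j then 1 else 0) (hfr : IsFrame E)
    {E' : Fin n → Derivation ℂ K' K'} (hfr' : IsFrame E') {i : Fin (N + 1)} {i' : Fin (N' + 1)}
    (hi : y i ≠ 0) {A : Place ℂ K → ℚ}
    (hAP : ∀ P l, IsPrimeDivisor y P → Centred y l P → A P = P.ord (y i / y l))
    {A' : Place ℂ K' → ℚ}
    (hAP' : ∀ P l, IsPrimeDivisor y' P → Centred y' l P → A' P = P.ord (y' i' / y' l))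
    (φ : K →ₐ[ℂ] K') {C : ℕ} {q : K'} (hq : q ≠ 0)
    (hCq : ∀ (P : Place ℂ K') (l : Fin (N + 1)) (l' : Fin (N' + 1)), y l ≠ 0 →
      Centred y' l' P → P.ord (φ (y i / y l)) ≤ C * P.ord (y' i' / y' l') + P.ord q) :
    ∃ δ : K', δ ≠ 0 ∧ ∀ (m b : ℕ) (ω : (Fin n → Derivation ℂ K K) → K),
      IsSection y n m (b • A) ω → ∃ ω', IsSection y' n m ((C * b) • A') ω' ∧
        ω' E' = q ^ b * (δ ^ m * φ (ω E)) := by
  have hess := hy.ess
  have hess' := hy'.ess
  let _ : Algebra K K' := φ.toRingHom.toAlgebra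
  have hst : IsScalarTower ℂ K K' := IsScalarTower.of_algebraMap_eq fun c => (φ.commutes c).symm
  have hfd : FiniteDimensional K K' := finite_map hn hn'
  have halg : Algebra.IsAlgebraic K K' := inferInstance
  have hmap : ∀ f : K, algebraMap K K' f = φ f := fun f => rfl
  refine ⟨(Matrix.of fun i j => E' i (algebraMap K K' (x j))).det, pull_ne hn hE hfr',
    fun m b ω h => ⟨fun D => q ^ b * pull K' x E m ω D, ⟨fun M D => ?_, fun P hP D hD => ?_⟩,
      rfl⟩⟩
  · simp only []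
    rw [pull_pluri (K' := K') x E m ω M D]
    ring
  · obtain ⟨P₀, e, hov⟩ := exists_below (k := ℂ) (K := K) (L := K') P
    have hdP := hP.divisorial hy' hn'
    have hdP₀ := divisorial_down hov hdP
    obtain ⟨l, hl⟩ := exists_centred hy P₀
    obtain ⟨l', hl'⟩ := exists_centred hy' P
    have h1 := sec_ord hy hn hcan hx hE hfr hi hAP h hdP₀ hl
    have h1' : OrdGe P₀ ω ((-(b * P₀.ord (y i / y l)) : ℤ) : ℚ) := by
      refine fun D hD => (h1 D hD).imp_right fun h => ?_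
      push_cast
      exact h
    have h2 := pull_ord (K' := K') hn hx hE hov hdP₀ h.1 h1' hD
    rcases h2 with h2 | h2
    · left
      change q ^ b * pull K' x E m ω D = 0
      rw [h2, mul_zero]
    by_cases h0 : pull K' x E m ω D = 0
    · left
      change q ^ b * pull K' x E m ω D = 0
      rw [h0, mul_zero]
    right
    change _ ≤ ((P.ord (q ^ b * pull K' x E m ω D) : ℤ) : ℚ)
    rw [P.ord_mul (pow_ne_zero _ hq) h0, P.ord_pow, Pi.smul_apply, nsmul_eq_mul,
      hAP' P l' hP hl']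
    have h3 := hCq P l l' hl.1 hl'
    have h4 : P.ord (φ (y i / y l)) = e * P₀.ord (y i / y l) := hov.2 _
    rw [h4] at h3
    have he : (1 : ℤ) ≤ e := by exact_mod_cast hov.1
    have h5 : (0 : ℤ) ≤ m * ((e : ℤ) - 1) := mul_nonneg (Int.natCast_nonneg _) (by omega)
    have h6 := mul_le_mul_of_nonneg_left h3 (show (0 : ℤ) ≤ b from Int.natCast_nonneg _)
    have h7 : -((C * b : ℕ) * P.ord (y' i' / y' l') : ℤ) ≤ b * P.ord q +
        P.ord (pull K' x E m ω D) := by
      push_cast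
      nlinarith
    exact_mod_cast h7

end pull

section

variable {K : Type} [Field K] [Algebra ℂ K] {N n : ℕ} {y : Fin (N + 1) → K}

/-- the poles of the pull backs of the coordinates are bounded by the poles of the coordinates -/
theorem exists_pole (hy : NormalModel y) {i : Fin (N + 1)} (hi : y i ≠ 0) (φ : K →ₐ[ℂ] K) :
    ∃ (C : ℕ) (q : K), 1 ≤ C ∧ q ≠ 0 ∧ ∀ (P : Place ℂ K) (l l' : Fin (N + 1)), y l ≠ 0 →
      Centred y l' P → P.ord (φ (y i / y l)) ≤ C * P.ord (y i / y l') + P.ord q := by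
  classical
  have h1 : ∀ l, ∃ p q : K, p ∈ chart y i ∧ q ∈ chart y i ∧ q ≠ 0 ∧ φ (y l / y i) * q = p := by
    intro l
    have h2 : φ (y l / y i) ∈ IntermediateField.adjoin ℂ (Set.range fun k => y k / y i) := by
      rw [hy.field i hi]
      trivial
    rw [IntermediateField.mem_adjoin_range_iff] at h2
    obtain ⟨r, s, hrs⟩ := h2
    have hmem : ∀ p : MvPolynomial (Fin (N + 1)) ℂ, aeval (fun k => y k / y i) p ∈ chart y i := by
      intro p
      unfold chart
      rw [Algebra.adjoin_range_eq_range_aeval]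
      exact ⟨p, rfl⟩
    by_cases hs : aeval (fun k => y k / y i) s = 0
    · refine ⟨0, 1, (chart y i).zero_mem, (chart y i).one_mem, one_ne_zero, ?_⟩
      rw [hrs, hs, div_zero, zero_mul]
    · exact ⟨_, _, hmem r, hmem s, hs, by rw [hrs]; exact div_mul_cancel₀ _ hs⟩
  choose p q hp hq hq0 hpq using h1
  obtain ⟨Q, hQ⟩ : ∃ Q, Q = ∏ l, q l := ⟨_, rfl⟩
  have hQ0 : Q ≠ 0 := by rw [hQ]; exact Finset.prod_ne_zero_iff.2 fun l _ => hq0 l
  obtain ⟨p', hp'⟩ : ∃ p' : Fin (N + 1) → K, p' = fun l => p l * ∏ j ∈ Finset.univ.erase l, q j :=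
    ⟨_, rfl⟩
  have hp'm : ∀ l, p' l ∈ chart y i := fun l => by
    rw [hp']
    exact (chart y i).mul_mem (hp l) ((chart y i).prod_mem fun j _ => hq j)
  have hp'e : ∀ l, φ (y l / y i) * Q = p' l := fun l => by
    rw [hp', hQ, ← Finset.mul_prod_erase Finset.univ q (Finset.mem_univ l), ← mul_assoc, hpq]
  have h2 : ∀ l l', ∃ k : ℕ, y l' ≠ 0 → p' l * (y i / y l') ^ k ∈ chart y l' := by
    intro l l'
    by_cases hl' : y l' = 0
    · exact ⟨0, fun h => absurd hl' h⟩
    · obtain ⟨k, hk⟩ := chart_change hl' hi (hp'm l)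
      exact ⟨k, fun _ => hk⟩
  choose k hk using h2
  obtain ⟨C, hC⟩ : ∃ C : ℕ, C = ∑ l, ∑ l', k l l' + 1 := ⟨_, rfl⟩
  refine ⟨C, Q, by omega, hQ0, fun P l l' hl hl' => ?_⟩
  have hkC : k l l' ≤ C := by
    rw [hC]
    exact ((Finset.single_le_sum (f := fun l' => k l l') (fun _ _ => Nat.zero_le _)
      (Finset.mem_univ l')).trans (Finset.single_le_sum (f := fun l => ∑ l', k l l')
      (fun _ _ => Nat.zero_le _) (Finset.mem_univ l))).trans (Nat.le_succ _)
  have hz0 : φ (y l / y i) ≠ 0 := by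
    rw [Ne, map_eq_zero]
    exact div_ne_zero hl hi
  have hp'0 : p' l ≠ 0 := by
    rw [← hp'e]
    exact mul_ne_zero hz0 hQ0
  have hyl' : y i / y l' ≠ 0 := div_ne_zero hi hl'.1
  have h3 := (P.reg_iff (mul_ne_zero hp'0 (pow_ne_zero _ hyl'))).1 (hl'.reg _ (hk l l' hl'.1))
  rw [P.ord_mul hp'0 (pow_ne_zero _ hyl'), P.ord_pow, ← hp'e, P.ord_mul hz0 hQ0] at h3
  have h4 := (P.reg_iff hyl').1 (hl'.2 i)
  have h5 : (k l l' : ℤ) * P.ord (y i / y l') ≤ C * P.ord (y i / y l') :=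
    mul_le_mul_of_nonneg_right (by exact_mod_cast hkC) h4
  have h6 : P.ord (φ (y i / y l)) = -P.ord (φ (y l / y i)) := by
    rw [← P.ord_inv, ← map_inv₀, inv_div]
  rw [h6]
  linarith

/-- the order of an element of the linear system of the hyperplane sections -/
theorem VH_ord {P : Place ℂ K} {l : Fin (N + 1)} (hl : Centred y l P) {f : K} (hf : f ∈ VH y)
    (hf0 : f ≠ 0) : P.ord (y l) ≤ P.ord f := by
  obtain ⟨s, hs, hs0, hle⟩ := exists_ord_le P hf hf0
  obtain ⟨k, rfl⟩ := hs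
  have h3 := (P.reg_iff (div_ne_zero hs0 hl.1)).1 (hl.2 k)
  rw [P.ord_div hs0 hl.1] at h3
  linarith

/-- **The pull backs of hyperplane sections are dominated by hyperplane sections.** -/
theorem exists_dn (hy : NormalModel y) (hn : Algebra.trdeg ℂ K = n) {i : Fin (N + 1)}
    (hi : y i ≠ 0) (φ : K →ₐ[ℂ] K) :
    ∃ (C : ℕ) (h : K), Dom n (im φ (VH y)) (VH y) 1 C h := by
  have hess := hy.ess
  obtain ⟨C, q, -, hq, hCq⟩ := exists_pole hy hi φ
  have hgi : φ (y i) ≠ 0 := by rwa [Ne, map_eq_zero]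
  refine ⟨C, φ (y i) / (y i ^ C * q), div_ne_zero hgi (mul_ne_zero (pow_ne_zero _ hi) hq),
    fun P hP f hf hf0 => ?_⟩
  obtain ⟨f₁, hf₁, rfl⟩ := mem_im.1 hf
  have hf₁0 : f₁ ≠ 0 := fun h => hf0 (by rw [h, map_zero])
  obtain ⟨P₀, e, he, hP₀, hPP⟩ := exists_under hn hn φ hP
  obtain ⟨l, hl⟩ := exists_centred hy P₀
  obtain ⟨l', hl'⟩ := exists_centred hy P
  have hyl : y l ≠ 0 := hl.1
  have hyl' : y l' ≠ 0 := hl'.1
  have hgl : φ (y l) ≠ 0 := by rwa [Ne, map_eq_zero]
  refine ⟨y l', Submodule.subset_span ⟨l', rfl⟩, hyl', ?_⟩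
  have h1 := hCq P l l' hyl hl'
  rw [map_div₀, P.ord_div hgi hgl, P.ord_div hi hyl'] at h1
  have h2 := VH_ord hl hf₁ hf₁0
  have h3 : P.ord (φ (y l)) ≤ P.ord (φ f₁) := by
    rw [hPP, hPP]
    exact mul_le_mul_of_nonneg_left h2 (Int.natCast_nonneg _)
  rw [P.ord_div hgi (mul_ne_zero (pow_ne_zero _ hi) hq), P.ord_mul (pow_ne_zero _ hi) hq,
    P.ord_pow]
  push_cast
  linarith

end

end Pool.Agent.T2H06.DYR
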