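import Pool.Agent.T2H06.DYR.GeoR

/-!
Hyperplane sections are dominated by their pull backs by dominant rational self-maps.
-/

set_option autoImplicit false
set_option linter.overlappingInstances false
set_option linter.unusedSectionVars false
set_option linter.unusedVariables false

open FF MvPolynomial Pool.Agent.W602.GT Pool.Agent.W603.LV Pool.Agent.W619.PQ
open Pool.Agent.Y172 Pool.Agent.Y191 Pool.Agent.R887
open Pool.Agent.T2H06.DYN (MM MM_dom MM_dom_rep MM_four Dom VH VH_fg mem_VH pen_VH VS mem_VS VS_fg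
  exists_lin sec_ord exists_ord_le)

namespace Pool.Agent.T2H06.DYR

section

variable {K : Type} [Field K] [Algebra ℂ K] {N n : ℕ} {y : Fin (N + 1) → K}

/-- functions of a chart, multiplied by a power of the equation of the hyperplane, are regular -/
theorem reg_chart {i : Fin (N + 1)} (hi : y i ≠ 0) {c : K} (hc : c ∈ chart y i) :
    ∃ k₀ : ℕ, ∀ k, k₀ ≤ k → ∀ (l : Fin (N + 1)) (P : Place ℂ K), Centred y l P →
      P.Reg (c * (y i / y l) ^ k) := by
  classical
  have h2 : ∀ l, ∃ k : ℕ, y l ≠ 0 → c * (y i / y l) ^ k ∈ chart y l := by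
    intro l
    by_cases hl : y l = 0
    · exact ⟨0, fun h => absurd hl h⟩
    · obtain ⟨k, hk⟩ := chart_change hl hi hc
      exact ⟨k, fun _ => hk⟩
  choose k hk using h2
  refine ⟨∑ l, k l, fun k' hk' l P hl => ?_⟩
  have hle : k l ≤ k' := (Finset.single_le_sum (f := k) (fun _ _ => Nat.zero_le _)
    (Finset.mem_univ l)).trans hk'
  obtain ⟨d, rfl⟩ : ∃ d, k' = k l + d := ⟨k' - k l, by omega⟩
  rw [pow_add, ← mul_assoc]
  refine P.reg_mul (hl.reg _ (hk l hl.1)) ?_
  have h3 : P.Reg (y i / y l) := hl.2 i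
  have h4 : ∀ d : ℕ, P.Reg ((y i / y l) ^ d) := by
    intro d
    induction d with
    | zero =>
      rw [pow_zero]
      exact Or.inr (by rw [P.ord_one])
    | succ d ih =>
      rw [pow_succ]
      exact P.reg_mul ih h3
  exact h4 d

end

section two

variable {K K' : Type} [Field K] [Algebra ℂ K] [Field K'] [Algebra ℂ K'] {N n : ℕ}
  {y : Fin (N + 1) → K}

/-- the poles of the elements of a finite extension are bounded by the poles of the coordinates of
the base -/
theorem exists_int (hy : NormalModel y) {i : Fin (N + 1)} (hi : y i ≠ 0)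
    [Algebra K K'] [IsScalarTower ℂ K K'] [FiniteDimensional K K'] (z : K') :
    ∃ (k₀ : ℕ) (q : K), q ≠ 0 ∧ q ∈ chart y i ∧ ∀ k, k₀ ≤ k →
      ∀ (l : Fin (N + 1)) (P : Place ℂ K)
      (Q : Place ℂ K') (e : ℕ), Centred y l P → Over Q P e →
        Q.Reg (algebraMap K K' (q * (y i / y l) ^ k) * z) := by
  classical
  obtain ⟨p, hp⟩ : ∃ p, p = minpoly K z := ⟨_, rfl⟩
  have hint : IsIntegral K z := Algebra.IsIntegral.isIntegral z
  have hmon : p.Monic := by rw [hp]; exact minpoly.monic hint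
  have hroot : Polynomial.aeval z p = 0 := by rw [hp]; exact minpoly.aeval K z
  have h1 : ∀ c : K, ∃ s : K, s ∈ chart y i ∧ s ≠ 0 ∧ c * s ∈ chart y i := by
    intro c
    have h2 : c ∈ IntermediateField.adjoin ℂ (Set.range fun k => y k / y i) := by
      rw [hy.field i hi]
      trivial
    rw [IntermediateField.mem_adjoin_range_iff] at h2
    obtain ⟨r, s, hrs⟩ := h2
    have hmem : ∀ p : MvPolynomial (Fin (N + 1)) ℂ, aeval (fun k => y k / y i) p ∈ chart y i := by
      intro p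
      unfold chart
      rw [Algebra.adjoin_range_eq_range_aeval]
      exact ⟨p, rfl⟩
    by_cases hs : aeval (fun k => y k / y i) s = 0
    · refine ⟨1, (chart y i).one_mem, one_ne_zero, ?_⟩
      rw [hrs, hs, div_zero, zero_mul]
      exact (chart y i).zero_mem
    · refine ⟨_, hmem s, hs, ?_⟩
      rw [hrs, div_mul_cancel₀ _ hs]
      exact hmem r
  choose den hden hden0 hdenc using h1
  obtain ⟨Q0, hQ0⟩ : ∃ Q0, Q0 = ∏ j ∈ Finset.range p.natDegree, den (p.coeff j) := ⟨_, rfl⟩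
  have hQ00 : Q0 ≠ 0 := by rw [hQ0]; exact Finset.prod_ne_zero_iff.2 fun l _ => hden0 _
  have hQ0m : Q0 ∈ chart y i := by
    rw [hQ0]
    exact (chart y i).prod_mem fun j _ => hden _
  have hcm : ∀ j, j < p.natDegree → p.coeff j * Q0 ∈ chart y i := by
    intro j hj
    rw [hQ0, ← Finset.mul_prod_erase _ _ (Finset.mem_range.2 hj), ← mul_assoc]
    exact (chart y i).mul_mem (hdenc _) ((chart y i).prod_mem fun j _ => hden _)
  obtain ⟨k₁, hk₁⟩ := reg_chart hi hQ0m
  have h2 : ∀ j, ∃ k₀ : ℕ, j < p.natDegree → ∀ k, k₀ ≤ k → ∀ (l : Fin (N + 1)) (P : Place ℂ K),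
      Centred y l P → P.Reg (p.coeff j * Q0 * (y i / y l) ^ k) := by
    intro j
    by_cases hj : j < p.natDegree
    · obtain ⟨k, hk⟩ := reg_chart hi (hcm j hj)
      exact ⟨k, fun _ => hk⟩
    · exact ⟨0, fun h => absurd h hj⟩
  choose k₂ hk₂ using h2
  refine ⟨k₁ + ∑ j ∈ Finset.range p.natDegree, k₂ j, Q0, hQ00, hQ0m,
    fun k hk l P Q e hl hov => ?_⟩
  obtain ⟨s, hs⟩ : ∃ s, s = Q0 * (y i / y l) ^ k := ⟨_, rfl⟩
  rw [← hs]
  refine reg_of_monic hov (p := p.scaleRoots s) ((Polynomial.monic_scaleRoots_iff s).2 hmon) ?_ ?_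
  · exact Polynomial.scaleRoots_aeval_eq_zero hroot
  · intro j
    rw [Polynomial.coeff_scaleRoots]
    rcases lt_trichotomy j p.natDegree with hj | hj | hj
    · obtain ⟨d, hd⟩ : ∃ d, p.natDegree - j = d + 1 := ⟨p.natDegree - j - 1, by omega⟩
      have hsreg : P.Reg s := by
        rw [hs]
        exact hk₁ k (by omega) l P hl
      have hcreg : P.Reg (p.coeff j * s) := by
        rw [hs, ← mul_assoc]
        refine hk₂ j hj k (le_trans ?_ hk) l P hl
        refine le_trans ?_ (Nat.le_add_left _ _)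
        exact Finset.single_le_sum (f := k₂) (fun _ _ => Nat.zero_le _) (Finset.mem_range.2 hj)
      rw [hd, pow_succ', ← mul_assoc]
      have h4 : ∀ d : ℕ, P.Reg (s ^ d) := by
        intro d
        induction d with
        | zero =>
          rw [pow_zero]
          exact Or.inr (by rw [P.ord_one])
        | succ d ih =>
          rw [pow_succ]
          exact P.reg_mul ih hsreg
      exact P.reg_mul hcreg (h4 d)
    · rw [hj, hmon.coeff_natDegree, Nat.sub_self, pow_zero, mul_one]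
      exact Or.inr (by rw [P.ord_one])
    · rw [Polynomial.coeff_eq_zero_of_natDegree_lt hj, zero_mul]
      exact P.reg_zero

/-- hyperplane sections are dominated by the pull backs of hyperplane sections by a generically
finite map -/
theorem exists_up' {N' : ℕ} {y' : Fin (N' + 1) → K'} (hy : NormalModel y)
    (hy' : NormalModel y') (hn : Algebra.trdeg ℂ K = n)
    (hn' : Algebra.trdeg ℂ K' = n) (φ : K →ₐ[ℂ] K') :
    ∃ (C : ℕ) (h : K'), Dom n (VH y') (im φ (VH y)) 1 C h := by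
  classical
  obtain ⟨i, hi⟩ := hy.ne
  obtain ⟨i', hi'⟩ := hy'.ne
  have hess' := hy'.ess
  let _ : Algebra K K' := φ.toRingHom.toAlgebra
  have hst : IsScalarTower ℂ K K' := IsScalarTower.of_algebraMap_eq fun c => (φ.commutes c).symm
  have hfd : FiniteDimensional K K' := finite_map hn hn'
  have halg : Algebra.IsAlgebraic K K' := inferInstance
  have hmap : ∀ f : K, algebraMap K K' f = φ f := fun f => rfl
  choose k₀ q hq hqc hreg using fun k' => exists_int (K' := K') hy hi (y' k' / y' i')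
  obtain ⟨Q0, hQ0⟩ : ∃ Q0, Q0 = ∏ k', q k' := ⟨_, rfl⟩
  have hQ00 : Q0 ≠ 0 := by rw [hQ0]; exact Finset.prod_ne_zero_iff.2 fun l _ => hq _
  choose k₁ hk₁ using fun k' => reg_chart hi (c := ∏ j ∈ Finset.univ.erase k', q j)
    ((chart y i).prod_mem fun j _ => hqc _)
  obtain ⟨B, hB⟩ : ∃ B, B = ∑ k', (k₀ k' + k₁ k') := ⟨_, rfl⟩
  have hφi : φ (y i) ≠ 0 := by rwa [Ne, map_eq_zero]
  have hφQ : φ Q0 ≠ 0 := by rwa [Ne, map_eq_zero]
  have key : ∀ k', ∀ (l : Fin (N + 1)) (P : Place ℂ K) (Q : Place ℂ K') (e : ℕ), Centred y l P →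
      Over Q P e → Q.Reg (φ (Q0 * (y i / y l) ^ B) * (y' k' / y' i')) := by
    intro k' l P Q e hl hov
    have hle : k₀ k' + k₁ k' ≤ B := by
      rw [hB]
      exact Finset.single_le_sum (f := fun k' => k₀ k' + k₁ k') (fun _ _ => Nat.zero_le _)
        (Finset.mem_univ k')
    obtain ⟨d, hd⟩ : ∃ d, B = k₀ k' + d := ⟨B - k₀ k', by omega⟩
    have h1 := hreg k' _ le_rfl l P Q e hl hov
    have h2 := hk₁ k' d (by omega) l P hl
    have h3 : Q.Reg (φ ((∏ j ∈ Finset.univ.erase k', q j) * (y i / y l) ^ d)) :=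
      hov.reg.2 h2
    have h4 := Q.reg_mul h1 h3
    have e1 : φ (Q0 * (y i / y l) ^ B) * (y' k' / y' i') =
        algebraMap K K' (q k' * (y i / y l) ^ k₀ k') * (y' k' / y' i') *
          φ ((∏ j ∈ Finset.univ.erase k', q j) * (y i / y l) ^ d) := by
      rw [hmap, hQ0, ← Finset.mul_prod_erase Finset.univ q (Finset.mem_univ k'), hd, pow_add]
      simp only [map_mul]
      ring
    rw [e1]
    exact h4
  refine ⟨B, y' i' / (φ (y i) ^ B * φ Q0), div_ne_zero hi' (mul_ne_zero (pow_ne_zero _ hφi) hφQ),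
    fun Q hQ f hf hf0 => ?_⟩
  obtain ⟨P, e, hov⟩ := exists_below (k := ℂ) (K := K) (L := K') Q
  obtain ⟨l, hl⟩ := exists_centred hy P
  obtain ⟨s, hs, hs0, hle⟩ := exists_ord_le Q hf hf0
  obtain ⟨k', rfl⟩ := hs
  have hyl : y l ≠ 0 := hl.1
  have hφl : φ (y l) ≠ 0 := by rwa [Ne, map_eq_zero]
  have hdl : φ (y i / y l) ≠ 0 := by
    rw [Ne, map_eq_zero]
    exact div_ne_zero hi hyl
  have h1 := key k' l P Q e hl hov
  have h2 : φ (Q0 * (y i / y l) ^ B) * (y' k' / y' i') ≠ 0 :=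
    mul_ne_zero (by rw [map_mul, map_pow]; exact mul_ne_zero hφQ (pow_ne_zero _ hdl))
      (div_ne_zero hs0 hi')
  have h3 := (Q.reg_iff h2).1 h1
  rw [map_mul, map_pow, Q.ord_mul (mul_ne_zero hφQ (pow_ne_zero _ hdl)) (div_ne_zero hs0 hi'),
    Q.ord_mul hφQ (pow_ne_zero _ hdl), Q.ord_pow, map_div₀, Q.ord_div hφi hφl,
    Q.ord_div hs0 hi'] at h3
  refine ⟨φ (y l), ⟨y l, Submodule.subset_span ⟨l, rfl⟩, rfl⟩, hφl, ?_⟩
  rw [Q.ord_div hi' (mul_ne_zero (pow_ne_zero _ hφi) hφQ), Q.ord_mul (pow_ne_zero _ hφi) hφQ,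
    Q.ord_pow]
  push_cast
  linarith

end two

end Pool.Agent.T2H06.DYR
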