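import Pool.Agent.T2H06.DYN.AbsC

/-!
Functions on multisets of integers with the four point property which are multiplied by a power of a
constant under translations: growth rates.
-/

set_option autoImplicit false
set_option linter.unusedVariables false

open Filter Topology Pool.Agent.T2H06.DYN

namespace Pool.Agent.T2H06.DYR

/-- a positive function on the multisets of cardinality `N` with the four point property, multiplied
by `exp (D t)` under the translation by `t` -/
structure LorT (N : ℕ) (D : ℝ) (F : Multiset ℤ → ℝ) : Prop where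
  pos : ∀ s, s.card = N → 0 < F s
  trans : ∀ (s : Multiset ℤ) (t : ℤ), s.card = N → F (s.map (fun x => x + t)) =
    Real.exp (D * t) * F s
  four : ∀ (ω : Multiset ℤ) (a b c d : ℤ), ω.card + 2 = N →
    F (a ::ₘ b ::ₘ ω) * F (c ::ₘ d ::ₘ ω) ≤
      2 * (F (a ::ₘ c ::ₘ ω) * F (b ::ₘ d ::ₘ ω) + F (a ::ₘ d ::ₘ ω) * F (b ::ₘ c ::ₘ ω))

section

variable {N : ℕ} {D : ℝ} {F : Multiset ℤ → ℝ}

/-- the function is made invariant under translations -/
noncomputable def un (N : ℕ) (D : ℝ) (F : Multiset ℤ → ℝ) (s : Multiset ℤ) : ℝ :=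
  F s * Real.exp (-(D * (s.sum : ℤ) / N))

theorem map_add_sum (s : Multiset ℤ) (t : ℤ) : (s.map (fun x => x + t)).sum = s.sum + s.card * t := by
  rw [Multiset.sum_map_add, Multiset.map_id', Multiset.map_const', Multiset.sum_replicate,
    nsmul_eq_mul]

theorem LorT.lor (hF : LorT N D F) : Lor N (un N D F) := by
  refine ⟨fun s hs => mul_pos (hF.pos s hs) (Real.exp_pos _), fun s t hs => ?_,
    fun ω a b c d hω => ?_⟩
  · rcases Nat.eq_zero_or_pos N with h0 | h0
    · have h1 : s = 0 := Multiset.card_eq_zero.1 (by rw [hs, h0])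
      rw [h1, Multiset.map_zero]
    · unfold un
      rw [hF.trans s t hs, map_add_sum, hs]
      have hN : (N : ℝ) ≠ 0 := by
        have : (0 : ℝ) < N := by exact_mod_cast h0
        exact this.ne'
      have e : -(D * ((s.sum + (N : ℤ) * t : ℤ) : ℝ) / N) =
          -(D * (s.sum : ℤ) / N) + -(D * t) := by
        push_cast
        field_simp
        ring
      rw [e, Real.exp_add]
      have e2 : Real.exp (D * t) * Real.exp (-(D * t)) = 1 := by
        rw [← Real.exp_add, add_neg_cancel, Real.exp_zero]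
      calc Real.exp (D * t) * F s * (Real.exp (-(D * (s.sum : ℤ) / N)) * Real.exp (-(D * t)))
          = F s * Real.exp (-(D * (s.sum : ℤ) / N)) *
            (Real.exp (D * t) * Real.exp (-(D * t))) := by ring
        _ = _ := by rw [e2, mul_one]
  · unfold un
    have h1 := hF.four ω a b c d hω
    obtain ⟨κ, hκ⟩ : ∃ κ, κ = Real.exp (-(D * ((a + b + c + d + 2 * ω.sum : ℤ) : ℝ) / N)) :=
      ⟨_, rfl⟩
    have hk : ∀ p q r s : ℤ, p + q + r + s = a + b + c + d →
        F (p ::ₘ q ::ₘ ω) * Real.exp (-(D * (((p ::ₘ q ::ₘ ω).sum : ℤ) : ℝ) / N)) *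
          (F (r ::ₘ s ::ₘ ω) * Real.exp (-(D * (((r ::ₘ s ::ₘ ω).sum : ℤ) : ℝ) / N))) =
        F (p ::ₘ q ::ₘ ω) * F (r ::ₘ s ::ₘ ω) * κ := by
      intro p q r s h
      have e : Real.exp (-(D * (((p ::ₘ q ::ₘ ω).sum : ℤ) : ℝ) / N)) *
          Real.exp (-(D * (((r ::ₘ s ::ₘ ω).sum : ℤ) : ℝ) / N)) = κ := by
        rw [← Real.exp_add, hκ, ← h]
        congr 1
        rw [Multiset.sum_cons, Multiset.sum_cons, Multiset.sum_cons, Multiset.sum_cons]
        push_cast
        ring
      rw [← e]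
      ring
    rw [hk a b c d rfl, hk a c b d (by ring), hk a d b c (by ring)]
    have hκ0 : 0 ≤ κ := by rw [hκ]; exact (Real.exp_pos _).le
    have h2 := mul_le_mul_of_nonneg_right h1 hκ0
    refine h2.trans (le_of_eq ?_)
    ring

theorem log_un {s : Multiset ℤ} (h : 0 < F s) :
    Real.log (un N D F s) = Real.log (F s) - D * (s.sum : ℤ) / N := by
  unfold un
  rw [Real.log_mul h.ne' (Real.exp_pos _).ne', Real.log_exp]
  ring

theorem tri_sum (a b c : ℤ) (i j l : ℕ) : (tri a b c i j l).sum = i * a + j * b + l * c := by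
  unfold tri
  rw [Multiset.sum_add, Multiset.sum_add, Multiset.sum_replicate, Multiset.sum_replicate,
    Multiset.sum_replicate, nsmul_eq_mul, nsmul_eq_mul, nsmul_eq_mul]

theorem LorT.LD_un (hF : LorT N D F) {p : ℕ} (hp : p ≤ N) (m : ℕ) :
    LD (un N D F) N p m = LD F N p m - D * p * m / N := by
  unfold LD
  rw [log_un (hF.pos _ (by rw [tri_card]; omega)), tri_sum]
  push_cast
  ring

/-- the upper bound for the products of three classes -/
theorem LorT.upper (hF : LorT N D F) (m : ℕ) {i j l : ℕ} (h : i + j + l = N) :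
    Real.log (F (tri ((2 * m : ℕ) : ℤ) (m : ℤ) 0 i j l)) + Real.log (F (tri 0 0 0 0 0 N)) ≤
      LD F N i m + LD F N (i + j) m + N * N * Real.log 4 := by
  have h1 := hF.lor.upper m h
  rw [hF.LD_un (by omega), hF.LD_un (by omega),
    log_un (hF.pos _ (by rw [tri_card]; omega)), log_un (hF.pos _ (by rw [tri_card]; omega)),
    tri_sum, tri_sum] at h1
  have e : D * ((((i : ℤ) * ((2 * m : ℕ) : ℤ) + (j : ℤ) * (m : ℤ) + (l : ℤ) * 0 : ℤ)) : ℝ) / N =
      D * i * m / N + D * ((i + j : ℕ) : ℝ) * m / N := by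
    push_cast
    ring
  have e2 : D * ((((0 : ℕ) : ℤ) * 0 + ((0 : ℕ) : ℤ) * 0 + (N : ℤ) * 0 : ℤ) : ℝ) / N = 0 := by
    push_cast
    ring
  rw [e, e2] at h1
  linarith

/-- the lower bound for the products of three classes -/
theorem LorT.lower (hF : LorT N D F) (m : ℕ) {i j l : ℕ} (h : i + j + l = N) :
    LD F N i (2 * m) + LD F N (i + j) m ≤
      Real.log (F (tri ((2 * m : ℕ) : ℤ) (m : ℤ) 0 i j l)) + LD F N i m + N * N * Real.log 4 := by
  have h1 := hF.lor.lower m h
  rw [hF.LD_un (by omega), hF.LD_un (by omega), hF.LD_un (by omega),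
    log_un (hF.pos _ (by rw [tri_card]; omega)), tri_sum] at h1
  have e : D * ((((i : ℤ) * ((2 * m : ℕ) : ℤ) + (j : ℤ) * (m : ℤ) + (l : ℤ) * 0 : ℤ)) : ℝ) / N =
      D * i * ((2 * m : ℕ) : ℝ) / N + D * ((i + j : ℕ) : ℝ) * m / N - D * i * m / N := by
    push_cast
    ring
  rw [e] at h1
  linarith

/-- **The growth rates exist.** -/
theorem LorT.exists_rate (hF : LorT N D F) {p : ℕ} (hp : p ≤ N) :
    ∃ d : ℝ, Tendsto (fun m : ℕ => LD F N p m / m) atTop (𝓝 d) := by
  obtain ⟨d, hd⟩ := hF.lor.exists_rate hp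
  refine ⟨d + D * p / N, ?_⟩
  have h1 := hd.add_const (D * p / N)
  refine h1.congr' ?_
  filter_upwards [eventually_gt_atTop 0] with m hm
  have hm0 : (m : ℝ) ≠ 0 := by
    have : (0 : ℝ) < m := by exact_mod_cast hm
    exact this.ne'
  rw [hF.LD_un hp]
  field_simp
  ring

theorem LorT.rate_zero (hF : LorT N D F) {d : ℝ}
    (h : Tendsto (fun m : ℕ => LD F N 0 m / m) atTop (𝓝 d)) : d = 0 := by
  have h1 : ∀ m, LD F N 0 m = Real.log (F (tri 0 0 0 0 0 N)) := by
    intro m
    simp only [LD, Nat.sub_zero]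
    rw [tri_zero_i]
  have h2 : Tendsto (fun m : ℕ => LD F N 0 m / m) atTop (𝓝 0) := by
    simp only [h1]
    exact tendsto_const_div_atTop_nhds_zero_nat _
  exact tendsto_nhds_unique h h2

theorem LorT.rate_top (hF : LorT N D F) {d : ℝ}
    (h : Tendsto (fun m : ℕ => LD F N N m / m) atTop (𝓝 d)) : d = D := by
  have hpos : 0 < F (tri 0 0 0 0 0 N) := hF.pos _ (by rw [tri_card]; omega)
  have h1 : ∀ m, LD F N N m = D * m + Real.log (F (tri 0 0 0 0 0 N)) := by
    intro m
    simp only [LD, Nat.sub_self]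
    have h2 := hF.trans (tri 0 0 0 0 0 N) m (by rw [tri_card]; omega)
    rw [tri_map] at h2
    have h3 : tri (0 + (m : ℤ)) (0 + (m : ℤ)) (0 + (m : ℤ)) 0 0 N = tri (m : ℤ) 0 0 N 0 0 := by
      simp [tri]
    rw [h3] at h2
    rw [h2, Real.log_mul (Real.exp_pos _).ne' hpos.ne', Real.log_exp]
    push_cast
    ring
  have h2 : Tendsto (fun m : ℕ => LD F N N m / m) atTop (𝓝 D) := by
    have h3 := (tendsto_const_div_atTop_nhds_zero_nat
      (Real.log (F (tri 0 0 0 0 0 N)))).const_add D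
    rw [add_zero] at h3
    refine h3.congr' ?_
    filter_upwards [eventually_gt_atTop 0] with m hm
    have hm0 : (m : ℝ) ≠ 0 := by
      have : (0 : ℝ) < m := by exact_mod_cast hm
      exact this.ne'
    rw [h1]
    field_simp
  exact tendsto_nhds_unique h h2

end

end Pool.Agent.T2H06.DYR
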