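import Pool.Agent.T2H06.DYR.Tw

/-!
The comparison of the growth rates; the largest growth rate is attained several times.
-/

set_option autoImplicit false
set_option linter.unusedVariables false

open Filter Topology Pool.Agent.T2H06.DYN

namespace Pool.Agent.T2H06.DYR

section compare

variable {N : ℕ} {D : ℝ} {F G : Multiset ℤ → ℝ}

/-- the mixed four point inequality for three times -/
theorem mixed_step (hF : LorT (N + 1) D F) (hG : LorT N D G)
    (hmix : ∀ (ω : Multiset ℤ) (a b c : ℤ), ω.card + 1 = N →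
      F (a ::ₘ b ::ₘ ω) * G (c ::ₘ ω) ≤
        2 * (F (a ::ₘ c ::ₘ ω) * G (b ::ₘ ω) + F (b ::ₘ c ::ₘ ω) * G (a ::ₘ ω)))
    {p' p : ℕ} (h1 : p' ≤ p) (h2 : p + 1 ≤ N) :
    ∃ C : ℝ, ∀ m : ℕ,
      (LD F (N + 1) (p' + 1) (2 * m) + LD F (N + 1) (p + 1) m - LD F (N + 1) (p' + 1) m) +
        (LD G N p' (2 * m) + LD G N (p + 1) m - LD G N p' m) ≤ C +
      max (LD F (N + 1) (p' + 1) m + LD F (N + 1) (p + 2) m + (LD G N p' m + LD G N p m))
        (LD F (N + 1) p' m + LD F (N + 1) (p + 1) m + (LD G N (p' + 1) m + LD G N (p + 1) m)) := by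
  obtain ⟨c₀, hc₀⟩ : ∃ c₀, c₀ = Real.log (F (tri 0 0 0 0 0 (N + 1))) := ⟨_, rfl⟩
  obtain ⟨c₁, hc₁⟩ : ∃ c₁, c₁ = Real.log (G (tri 0 0 0 0 0 N)) := ⟨_, rfl⟩
  obtain ⟨κ, hκ⟩ : ∃ κ, κ = ((N + 1 : ℕ) : ℝ) * ((N + 1 : ℕ) : ℝ) * Real.log 4 := ⟨_, rfl⟩
  obtain ⟨κ', hκ'⟩ : ∃ κ', κ' = (N : ℝ) * N * Real.log 4 := ⟨_, rfl⟩
  refine ⟨Real.log 4 + 2 * κ + 2 * κ' - c₀ - c₁, fun m => ?_⟩
  obtain ⟨i, hi⟩ : ∃ i, i = p' := ⟨_, rfl⟩
  obtain ⟨j, hj⟩ : ∃ j, p = p' + j := ⟨p - p', by omega⟩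
  obtain ⟨l, hl⟩ : ∃ l, N = p + 1 + l := ⟨N - (p + 1), by omega⟩
  obtain ⟨S, hS⟩ : ∃ S : ℤ, S = ((2 * m : ℕ) : ℤ) := ⟨_, rfl⟩
  have hω : (tri S m 0 p' j l).card + 1 = N := by rw [tri_card]; omega
  have h3 := hmix (tri S m 0 p' j l) S 0 m hω
  simp only [cons_tri_a, cons_tri_b, cons_tri_c] at h3
  have pF : ∀ i' j' l', i' + j' + l' = N + 1 → 0 < F (tri S m 0 i' j' l') := fun i' j' l' h' =>
    hF.pos _ (by rw [tri_card]; exact h')
  have pG : ∀ i' j' l', i' + j' + l' = N → 0 < G (tri S m 0 i' j' l') := fun i' j' l' h' =>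
    hG.pos _ (by rw [tri_card]; exact h')
  have q1 := pF (p' + 1) j (l + 1) (by omega)
  have q2 := pG p' (j + 1) l (by omega)
  have q3 := pF (p' + 1) (j + 1) l (by omega)
  have q4 := pG p' j (l + 1) (by omega)
  have q5 := pF p' (j + 1) (l + 1) (by omega)
  have q6 := pG (p' + 1) j l (by omega)
  have uF : ∀ i' j' l', i' + j' + l' = N + 1 → Real.log (F (tri S m 0 i' j' l')) + c₀ ≤
      LD F (N + 1) i' m + LD F (N + 1) (i' + j') m + κ := by
    intro i' j' l' h'
    rw [hS, hc₀, hκ]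
    exact hF.upper m h'
  have uG : ∀ i' j' l', i' + j' + l' = N → Real.log (G (tri S m 0 i' j' l')) + c₁ ≤
      LD G N i' m + LD G N (i' + j') m + κ' := by
    intro i' j' l' h'
    rw [hS, hc₁, hκ']
    exact hG.upper m h'
  have lF : ∀ i' j' l', i' + j' + l' = N + 1 → LD F (N + 1) i' (2 * m) +
      LD F (N + 1) (i' + j') m ≤ Real.log (F (tri S m 0 i' j' l')) + LD F (N + 1) i' m + κ := by
    intro i' j' l' h'
    rw [hS, hκ]
    exact hF.lower m h'
  have lG : ∀ i' j' l', i' + j' + l' = N → LD G N i' (2 * m) +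
      LD G N (i' + j') m ≤ Real.log (G (tri S m 0 i' j' l')) + LD G N i' m + κ' := by
    intro i' j' l' h'
    rw [hS, hκ']
    exact hG.lower m h'
  have a1 := lF (p' + 1) j (l + 1) (by omega)
  have a2 := lG p' (j + 1) l (by omega)
  have a3 := uF (p' + 1) (j + 1) l (by omega)
  have a4 := uG p' j (l + 1) (by omega)
  have a5 := uF p' (j + 1) (l + 1) (by omega)
  have a6 := uG (p' + 1) j l (by omega)
  have e1 : p' + 1 + j = p + 1 := by omega
  have e2 : p' + (j + 1) = p + 1 := by omega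
  have e3 : p' + 1 + (j + 1) = p + 2 := by omega
  have e4 : p' + j = p := by omega
  rw [e1] at a1 a6
  rw [e2] at a2 a5
  rw [e3] at a3
  rw [e4] at a4
  -- the maximum of the two products
  have h4 : F (tri S m 0 (p' + 1) j (l + 1)) * G (tri S m 0 p' (j + 1) l) ≤
      4 * max (F (tri S m 0 (p' + 1) (j + 1) l) * G (tri S m 0 p' j (l + 1)))
        (F (tri S m 0 p' (j + 1) (l + 1)) * G (tri S m 0 (p' + 1) j l)) := by
    refine h3.trans ?_
    have b1 := le_max_left (F (tri S m 0 (p' + 1) (j + 1) l) * G (tri S m 0 p' j (l + 1)))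
      (F (tri S m 0 p' (j + 1) (l + 1)) * G (tri S m 0 (p' + 1) j l))
    have b2 := le_max_right (F (tri S m 0 (p' + 1) (j + 1) l) * G (tri S m 0 p' j (l + 1)))
      (F (tri S m 0 p' (j + 1) (l + 1)) * G (tri S m 0 (p' + 1) j l))
    linarith
  rcases le_total (F (tri S m 0 (p' + 1) (j + 1) l) * G (tri S m 0 p' j (l + 1)))
    (F (tri S m 0 p' (j + 1) (l + 1)) * G (tri S m 0 (p' + 1) j l)) with hle | hle
  · rw [max_eq_right hle] at h4
    have h5 := Real.log_le_log (mul_pos q1 q2) h4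
    rw [Real.log_mul q1.ne' q2.ne', Real.log_mul (by norm_num) (mul_pos q5 q6).ne',
      Real.log_mul q5.ne' q6.ne'] at h5
    have h6 := le_max_right (LD F (N + 1) (p' + 1) m + LD F (N + 1) (p + 2) m +
      (LD G N p' m + LD G N p m))
        (LD F (N + 1) p' m + LD F (N + 1) (p + 1) m + (LD G N (p' + 1) m + LD G N (p + 1) m))
    linarith
  · rw [max_eq_left hle] at h4
    have h5 := Real.log_le_log (mul_pos q1 q2) h4
    rw [Real.log_mul q1.ne' q2.ne', Real.log_mul (by norm_num) (mul_pos q3 q4).ne',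
      Real.log_mul q3.ne' q4.ne'] at h5
    have h6 := le_max_left (LD F (N + 1) (p' + 1) m + LD F (N + 1) (p + 2) m +
      (LD G N p' m + LD G N p m))
        (LD F (N + 1) p' m + LD F (N + 1) (p + 1) m + (LD G N (p' + 1) m + LD G N (p + 1) m))
    linarith

/-- **The comparison of the largest growth rates.** -/
theorem compare (hF : LorT (N + 1) D F) (hG : LorT N D G)
    (hmix : ∀ (ω : Multiset ℤ) (a b c : ℤ), ω.card + 1 = N →
      F (a ::ₘ b ::ₘ ω) * G (c ::ₘ ω) ≤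
        2 * (F (a ::ₘ c ::ₘ ω) * G (b ::ₘ ω) + F (b ::ₘ c ::ₘ ω) * G (a ::ₘ ω)))
    {d r : ℕ → ℝ} (hd : ∀ p ≤ N + 1, Tendsto (fun m : ℕ => LD F (N + 1) p m / m) atTop (𝓝 (d p)))
    (hr : ∀ p ≤ N, Tendsto (fun m : ℕ => LD G N p m / m) atTop (𝓝 (r p))) {s : ℕ}
    (hs : s ≤ N + 1) : ∃ q ≤ N, d s ≤ r q := by
  by_contra hcon
  push Not at hcon
  have hd0 : d 0 = 0 := hF.rate_zero (hd 0 (Nat.zero_le _))
  have hdN : d (N + 1) = D := hF.rate_top (hd _ le_rfl)
  have hr0 : r 0 = 0 := hG.rate_zero (hr 0 (Nat.zero_le _))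
  have hrN : r N = D := hG.rate_top (hr _ le_rfl)
  have hpos : 0 < d s := by
    have := hcon 0 (Nat.zero_le _)
    linarith
  have hs0 : s ≠ 0 := by
    rintro rfl
    linarith
  have hsN : s ≠ N + 1 := by
    rintro rfl
    have := hcon N le_rfl
    linarith
  -- an index below
  have hex1 : ∃ p' < s, r (p' + 1) - r p' < d (p' + 1) - d p' := by
    by_contra h1
    push Not at h1
    have h2 : ∀ i ≤ s, d i ≤ r i := by
      intro i
      induction i with
      | zero => intro _; rw [hd0, hr0]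
      | succ i ih =>
        intro hi
        have h3 := ih (by omega)
        have h4 := h1 i (by omega)
        linarith
    have h3 := h2 s le_rfl
    have h4 := hcon s (by omega)
    linarith
  -- an index above
  have hex2 : ∃ p, s ≤ p + 1 ∧ p + 1 ≤ N ∧ d (p + 2) - d (p + 1) < r (p + 1) - r p := by
    by_contra h1
    push Not at h1
    have h2 : ∀ i, s - 1 + i ≤ N → r (s - 1 + i) - d (s - 1 + i + 1) ≤ r (s - 1) - d s := by
      intro i
      induction i with
      | zero =>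
        intro _
        have : s - 1 + 0 + 1 = s := by omega
        rw [this, add_zero]
      | succ i ih =>
        intro hi
        have h3 := ih (by omega)
        have h4 := h1 (s - 1 + i) (by omega) (by omega)
        have e1 : s - 1 + (i + 1) = s - 1 + i + 1 := by omega
        rw [e1]
        linarith
    have h3 := h2 (N - (s - 1)) (by omega)
    have e1 : s - 1 + (N - (s - 1)) = N := by omega
    rw [e1, hrN, hdN] at h3
    have h4 := hcon (s - 1) (by omega)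
    linarith
  obtain ⟨p', hp's, hp'⟩ := hex1
  obtain ⟨p, hps, hpN, hp⟩ := hex2
  obtain ⟨C, hC⟩ := mixed_step hF hG hmix (p' := p') (p := p) (by omega) hpN
  -- the two differences
  obtain ⟨L, hL⟩ : ∃ L : ℕ → ℝ, L = fun m : ℕ =>
      (LD F (N + 1) (p' + 1) (2 * m) + LD F (N + 1) (p + 1) m - LD F (N + 1) (p' + 1) m) +
        (LD G N p' (2 * m) + LD G N (p + 1) m - LD G N p' m) := ⟨_, rfl⟩
  obtain ⟨R₁, hR₁⟩ : ∃ R₁ : ℕ → ℝ, R₁ = fun m : ℕ =>
      LD F (N + 1) (p' + 1) m + LD F (N + 1) (p + 2) m + (LD G N p' m + LD G N p m) := ⟨_, rfl⟩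
  obtain ⟨R₂, hR₂⟩ : ∃ R₂ : ℕ → ℝ, R₂ = fun m : ℕ =>
      LD F (N + 1) p' m + LD F (N + 1) (p + 1) m + (LD G N (p' + 1) m + LD G N (p + 1) m) :=
    ⟨_, rfl⟩
  have tL : Tendsto (fun m : ℕ => L m / m) atTop (𝓝 ((2 * d (p' + 1) + d (p + 1) - d (p' + 1)) +
      (2 * r p' + r (p + 1) - r p'))) := by
    have h1 := ((rate_double (hd (p' + 1) (by omega))).add (hd (p + 1) (by omega))).sub
      (hd (p' + 1) (by omega))
    have h2 := ((rate_double (hr p' (by omega))).add (hr (p + 1) (by omega))).sub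
      (hr p' (by omega))
    refine (h1.add h2).congr fun m => ?_
    rw [hL]
    simp only
    ring
  have tR₁ : Tendsto (fun m : ℕ => R₁ m / m) atTop (𝓝 (d (p' + 1) + d (p + 2) +
      (r p' + r p))) := by
    have h1 := (hd (p' + 1) (by omega)).add (hd (p + 2) (by omega))
    have h2 := (hr p' (by omega)).add (hr p (by omega))
    refine (h1.add h2).congr fun m => ?_
    rw [hR₁]
    simp only
    ring
  have tR₂ : Tendsto (fun m : ℕ => R₂ m / m) atTop (𝓝 (d p' + d (p + 1) +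
      (r (p' + 1) + r (p + 1)))) := by
    have h1 := (hd p' (by omega)).add (hd (p + 1) (by omega))
    have h2 := (hr (p' + 1) (by omega)).add (hr (p + 1) (by omega))
    refine (h1.add h2).congr fun m => ?_
    rw [hR₂]
    simp only
    ring
  have t1 := tL.sub tR₁
  have t2 := tL.sub tR₂
  have tC : Tendsto (fun m : ℕ => C / (m : ℝ)) atTop (𝓝 0) := tendsto_const_div_atTop_nhds_zero_nat C
  have t3 := t1.sub tC
  have t4 := t2.sub tC
  have e3 := t3.eventually (lt_mem_nhds (a := 0) (by linarith))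
  have e4 := t4.eventually (lt_mem_nhds (a := 0) (by linarith))
  obtain ⟨m, hm3, hm4, hm⟩ := (e3.and (e4.and (eventually_gt_atTop 0))).exists
  have hm0 : (0 : ℝ) < m := by exact_mod_cast hm
  have h5 := hC m
  have h6 : L m ≤ C + max (R₁ m) (R₂ m) := by rw [hL, hR₁, hR₂]; exact h5
  have h7 : 0 < L m - R₁ m - C := by
    have : L m / m - R₁ m / m - C / m = (L m - R₁ m - C) / m := by ring
    rw [this] at hm3
    exact (div_pos_iff_of_pos_right hm0).1 hm3
  have h8 : 0 < L m - R₂ m - C := by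
    have : L m / m - R₂ m / m - C / m = (L m - R₂ m - C) / m := by ring
    rw [this] at hm4
    exact (div_pos_iff_of_pos_right hm0).1 hm4
  rcases max_cases (R₁ m) (R₂ m) with ⟨h9, -⟩ | ⟨h9, -⟩ <;> rw [h9] at h6 <;> linarith

end compare



/-- the comparison of the rates of two functions -/
theorem rate_le {N : ℕ} {D₀ : ℝ} {F G : Multiset ℤ → ℝ} (hF : LorT (N + 1) D₀ F) (hG : LorT N D₀ G) {C : ℝ}
    (h : ∀ s : Multiset ℤ, s.card = N → ∀ t : ℤ, G s ≤ C * F (t ::ₘ s)) {p : ℕ} (hp : p ≤ N)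
    {r d d' : ℝ} (hr : Tendsto (fun m : ℕ => LD G N p m / m) atTop (𝓝 r))
    (hd : Tendsto (fun m : ℕ => LD F (N + 1) p m / m) atTop (𝓝 d))
    (hd' : Tendsto (fun m : ℕ => LD F (N + 1) (p + 1) m / m) atTop (𝓝 d')) : r ≤ d ∧ r ≤ d' := by
  have hGpos : ∀ m : ℕ, 0 < G (tri m 0 0 p 0 (N - p)) := fun m => hG.pos _ (by
    rw [tri_card]; omega)
  have hF1 : ∀ m : ℕ, 0 < F (tri m 0 0 p 0 (N + 1 - p)) := fun m => hF.pos _ (by
    rw [tri_card]; omega)
  have hF2 : ∀ m : ℕ, 0 < F (tri m 0 0 (p + 1) 0 (N + 1 - (p + 1))) := fun m => hF.pos _ (by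
    rw [tri_card]; omega)
  have h1 : ∀ m : ℕ, G (tri m 0 0 p 0 (N - p)) ≤ C * F (tri m 0 0 p 0 (N + 1 - p)) := by
    intro m
    have h2 := h (tri m 0 0 p 0 (N - p)) (by rw [tri_card]; omega) 0
    rw [cons_tri_c] at h2
    have e : N + 1 - p = N - p + 1 := by omega
    rwa [e]
  have h2 : ∀ m : ℕ, G (tri m 0 0 p 0 (N - p)) ≤
      C * F (tri m 0 0 (p + 1) 0 (N + 1 - (p + 1))) := by
    intro m
    have h2 := h (tri m 0 0 p 0 (N - p)) (by rw [tri_card]; omega) m
    rw [cons_tri_a] at h2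
    have e : N + 1 - (p + 1) = N - p := by omega
    rwa [e]
  have hC : 0 < C := by
    by_contra hc
    push Not at hc
    have h3 := h1 0
    have h4 := mul_nonpos_of_nonpos_of_nonneg hc (hF1 0).le
    have h5 := hGpos 0
    linarith
  have tC : Tendsto (fun m : ℕ => Real.log C / (m : ℝ)) atTop (𝓝 0) :=
    tendsto_const_div_atTop_nhds_zero_nat _
  have key : ∀ {e : ℝ} {f : ℕ → ℝ}, (∀ m : ℕ, LD G N p m ≤ Real.log C + f m) →
      Tendsto (fun m : ℕ => f m / m) atTop (𝓝 e) → r ≤ e := by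
    intro e f hf he
    have h3 := tC.add he
    rw [zero_add] at h3
    refine le_of_tendsto_of_tendsto' hr h3 fun m => ?_
    rw [← add_div]
    exact div_le_div_of_nonneg_right (hf m) (Nat.cast_nonneg _)
  refine ⟨key (f := LD F (N + 1) p) (fun m => ?_) hd,
    key (f := LD F (N + 1) (p + 1)) (fun m => ?_) hd'⟩
  · have h3 := Real.log_le_log (hGpos m) (h1 m)
    rw [Real.log_mul hC.ne' (hF1 m).ne'] at h3
    exact h3
  · have h3 := Real.log_le_log (hGpos m) (h2 m)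
    rw [Real.log_mul hC.ne' (hF2 m).ne'] at h3
    exact h3

/-- **The largest growth rate is attained `j + 1` times.** -/
theorem plateau {n j : ℕ} {D₀ : ℝ} (hj : j ≤ n) {F : ℕ → Multiset ℤ → ℝ}
    (hL : ∀ i ≤ j, LorT (n - i) D₀ (F i))
    (hmix : ∀ i < j, ∀ (ω : Multiset ℤ) (a b c : ℤ), ω.card + 1 = n - (i + 1) →
      F i (a ::ₘ b ::ₘ ω) * F (i + 1) (c ::ₘ ω) ≤
        2 * (F i (a ::ₘ c ::ₘ ω) * F (i + 1) (b ::ₘ ω) +
          F i (b ::ₘ c ::ₘ ω) * F (i + 1) (a ::ₘ ω)))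
    (hdom : ∀ i < j, ∃ C : ℝ, ∀ s : Multiset ℤ, s.card = n - (i + 1) → ∀ t : ℤ,
      F (i + 1) s ≤ C * F i (t ::ₘ s)) :
    ∃ d : ℕ → ℝ, (∀ p ≤ n, Tendsto (fun m : ℕ => LD (F 0) n p m / m) atTop (𝓝 (d p))) ∧
      ∃ q, q + j ≤ n ∧ ∀ i ≤ j, ∀ p ≤ n, d p ≤ d (q + i) := by
  classical
  have hex : ∀ i p, ∃ d : ℝ, i ≤ j → p ≤ n - i →
      Tendsto (fun m : ℕ => LD (F i) (n - i) p m / m) atTop (𝓝 d) := by
    intro i p
    by_cases h : i ≤ j ∧ p ≤ n - i
    · obtain ⟨d, hd⟩ := (hL i h.1).exists_rate h.2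
      exact ⟨d, fun _ _ => hd⟩
    · exact ⟨0, fun h1 h2 => absurd ⟨h1, h2⟩ h⟩
  choose D hD using hex
  have hsub : ∀ i < j, n - i = n - (i + 1) + 1 := fun i hi => by omega
  -- the maxima do not decrease
  have hchain : ∀ i ≤ j, ∃ q ≤ n - i, ∀ p ≤ n, D 0 p ≤ D i q := by
    intro i
    induction i with
    | zero =>
      intro _
      obtain ⟨q, hq, hmax⟩ := Finset.exists_max_image (Finset.range (n + 1)) (D 0)
        ⟨0, Finset.mem_range.2 (Nat.succ_pos _)⟩
      exact ⟨q, Nat.lt_succ_iff.1 (Finset.mem_range.1 hq), fun p hp =>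
        hmax p (Finset.mem_range.2 (Nat.lt_succ_of_le hp))⟩
    | succ i ih =>
      intro hi
      obtain ⟨q, hq, hmax⟩ := ih (by omega)
      have h1 := hL i (by omega)
      have h2 := hL (i + 1) hi
      have h3 := hsub i (by omega)
      have hDi := fun p hp => hD i p (by omega) hp
      rw [h3] at h1 hq hDi
      obtain ⟨q', hq', hle⟩ := compare h1 h2 (hmix i (by omega)) (d := D i) (r := D (i + 1))
        hDi (fun p hp => hD (i + 1) p hi hp) hq
      exact ⟨q', hq', fun p hp => (hmax p hp).trans hle⟩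
  -- the rates decrease
  have hdec : ∀ i ≤ j, ∀ q ≤ n - i, ∀ i' ≤ i, D i q ≤ D 0 (q + i') := by
    intro i
    induction i with
    | zero =>
      intro _ q _ i' hi'
      have : i' = 0 := by omega
      rw [this, add_zero]
    | succ i ih =>
      intro hi q hq i' hi'
      have h1 := hL i (by omega)
      have h2 := hL (i + 1) hi
      have h3 := hsub i (by omega)
      obtain ⟨C, hC⟩ := hdom i (by omega)
      have hDi := fun p hp => hD i p (by omega) hp
      rw [h3] at h1 hDi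
      obtain ⟨h4, h5⟩ := rate_le h1 h2 hC hq (hD (i + 1) q hi hq) (hDi q (by omega))
        (hDi (q + 1) (by omega))
      rcases Nat.eq_zero_or_pos i' with h6 | h6
      · rw [h6]
        exact h4.trans (ih (by omega) q (by omega) 0 (Nat.zero_le _))
      · obtain ⟨i'', rfl⟩ : ∃ i'', i' = i'' + 1 := ⟨i' - 1, by omega⟩
        have h7 := ih (by omega) (q + 1) (by omega) i'' (by omega)
        have e : q + (i'' + 1) = q + 1 + i'' := by ring
        rw [e]
        exact h5.trans h7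
  refine ⟨D 0, fun p hp => hD 0 p (Nat.zero_le _) (by omega), ?_⟩
  obtain ⟨q, hq, hmax⟩ := hchain j le_rfl
  exact ⟨q, by omega, fun i hi p hp => (hmax p hp).trans (hdec j le_rfl q hq i hi)⟩



end Pool.Agent.T2H06.DYR
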